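import Pool.Agent.K1H13.M.Wt

/-!
# Counting the eigenvalues of the wrong weight
-/

set_option autoImplicit false
set_option linter.unusedSectionVars false

open Module TensorProduct

universe v

namespace Pool.Agent.K1H13.M

open Pool.Agent.Y143 Pool.Agent.Y163.MW Pool.Agent.Y136.UB

section

variable {Ω : Type v} [Field Ω] [CharZero Ω] {V : Type v} [AddCommGroup V] [Module Ω V] {q : ℕ}

lemma Dom.N {gr : ℤ → Submodule Ω V} {N : Module.End Ω V} {x : V} (hx : Dom gr N x) :
    Dom gr N (N x) := by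
  obtain ⟨U, _, _, ι, _, b, a, n, e, h, f, hs, hb, hf, u, rfl⟩ := hx
  exact ⟨U, inferInstance, inferInstance, ι, inferInstance, b, a, n, e, h, f, hs, hb, hf, n u,
    hf u⟩

lemma Dom.zero {gr : ℤ → Submodule Ω V} {N : Module.End Ω V} : Dom gr N 0 := by
  refine ⟨PUnit, inferInstance, inferInstance, Empty, inferInstance, Basis.empty _,
    Empty.elim, 0, 0, 0, 0, ⟨fun i => i.elim, by simp, by simp, by simp⟩, fun i => i.elim,
    fun u => by simp, 0, by simp⟩

/-- The hypotheses on the pairing `B`. -/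
structure Pairing (q d : ℕ) (F N : Module.End Ω V) (B : V →ₗ[Ω] V →ₗ[Ω] Ω) : Prop where
  hF : ∀ x y, B (F x) (F y) = (q : Ω) ^ d * B x y
  hN : ∀ x y, B (N x) y = - B x (N y)

lemma Pairing.flip {d : ℕ} {F N : Module.End Ω V} {B : V →ₗ[Ω] V →ₗ[Ω] Ω}
    (h : Pairing q d F N B) : Pairing q d F N B.flip :=
  ⟨fun x y => h.hF y x, fun x y => by
    rw [LinearMap.flip_apply, LinearMap.flip_apply, h.hN, neg_neg]⟩

/-- The pairing `B` between `S` and `T` is perfect. -/
structure Perf (B : V →ₗ[Ω] V →ₗ[Ω] Ω) (S T : Submodule Ω V) : Prop where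
  left : ∀ x ∈ S, (∀ y ∈ T, B x y = 0) → x = 0
  right : ∀ y ∈ T, (∀ x ∈ S, B x y = 0) → y = 0

lemma Perf.flip {B : V →ₗ[Ω] V →ₗ[Ω] Ω} {S T : Submodule Ω V} (h : Perf B S T) :
    Perf B.flip T S := ⟨h.right, h.left⟩

/-- Subspaces `G ⊇ S` of degree `m`, stable under the operators, with integral weights. -/
structure Datum (q : ℕ) (F N : Module.End Ω V) (G S : Submodule Ω V) : Prop where
  stG : Stable G F N
  stS : Stable S F N
  le : S ≤ G
  wt : HasWt q G F
  NF : ∀ x, N (F x) = (q : Ω) • F (N x)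

variable [IsAlgClosed Ω] [Module.Finite Ω V] {F N : Module.End Ω V} {B : V →ₗ[Ω] V →ₗ[Ω] Ω}
  {G S G' T : Submodule Ω V} {d : ℕ} {m m' : ℤ}

namespace Datum

lemma FS (D : Datum q F N G S) : ∀ x ∈ S, F x ∈ S := fun x hx => (D.stS x hx).1
lemma NS (D : Datum q F N G S) : ∀ x ∈ S, N x ∈ S := fun x hx => (D.stS x hx).2
lemma FG (D : Datum q F N G S) : ∀ x ∈ G, F x ∈ G := fun x hx => (D.stG x hx).1
lemma NG (D : Datum q F N G S) : ∀ x ∈ G, N x ∈ G := fun x hx => (D.stG x hx).2
lemma wtS (D : Datum q F N G S) : HasWt q S F := D.wt.mono D.le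

end Datum

/-- Decomposition of the elements of `S`. -/
lemma exists_dec (hq : 1 < q) (hS : ∀ x ∈ S, F x ∈ S) (hw : HasWt q S F) (m : ℤ) {x : V}
    (hx : x ∈ S) : ∃ (Z : Finset ℤ) (v : ℤ → V), (∀ c, v c ∈ exc q m S F c) ∧
      (∀ c, c ∉ Z → v c = 0) ∧ ∑ c ∈ Z, v c = x := by
  rw [← iSup_exc hS hw m] at hx
  obtain ⟨f, hf, hfx⟩ := (Submodule.mem_iSup_iff_exists_finsupp _ _).1 hx
  exact ⟨f.support, f, hf, fun c hc => Finsupp.notMem_support_iff.1 hc, hfx⟩

/-- Orthogonality of the parts of the excesses `c` and `c'` unless `c + c' = 0`. -/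
lemma orth_exc (hq : 1 < q) (D : Datum q F N G S) (D' : Datum q F N G' T)
    (P : Pairing q d F N B) (hm : m + m' = 2 * d) {c c' : ℤ} (hc : c + c' ≠ 0) {x y : V}
    (hx : x ∈ exc q m G F c) (hy : y ∈ exc q m' G' F c') : B x y = 0 :=
  orth_wt hq D.FG D'.FG P.hF (by omega) hx hy

/-- The pairing with an element of excess `c`. -/
lemma pair_dec (hq : 1 < q) (D : Datum q F N G S) (D' : Datum q F N G' T)
    (P : Pairing q d F N B) (hm : m + m' = 2 * d) {Z : Finset ℤ} {v : ℤ → V}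
    (hv : ∀ c, v c ∈ exc q m G F c) (hv0 : ∀ c, c ∉ Z → v c = 0) {c : ℤ} {y : V}
    (hy : y ∈ exc q m' G' F (-c)) : B (∑ c ∈ Z, v c) y = B (v c) y := by
  rw [map_sum, LinearMap.sum_apply]
  by_cases hc : c ∈ Z
  · rw [Finset.sum_eq_single c]
    · intro c' _ hne
      exact orth_exc hq D D' P hm (by omega) (hv c') hy
    · intro h
      exact absurd hc h
  · rw [hv0 c hc, map_zero, LinearMap.zero_apply]
    refine Finset.sum_eq_zero fun c' hc' => ?_
    have hne : c' ≠ c := fun h => hc (h ▸ hc')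
    exact orth_exc hq D D' P hm (by omega) (hv c') hy

lemma exc_mono (h : S ≤ G) (m c : ℤ) : exc q m S F c ≤ exc q m G F c := wtPart_mono h _

/-- Elements of `S` with given pairings, homogeneous. -/
lemma exists_proj (hq : 1 < q) (D : Datum q F N G S) (D' : Datum q F N G' T)
    (P : Pairing q d F N B) (hm : m + m' = 2 * d) (hB : Perf B S T) {c : ℤ} {r : V}
    (hr : r ∈ exc q m G F c) : ∃ x ∈ exc q m S F c, ∀ y ∈ T, B x y = B r y := by
  classical
  -- some element of `S`
  have h1 : ∃ x ∈ S, ∀ y ∈ T, B x y = B r y := by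
    let φ : S →ₗ[Ω] Module.Dual Ω T := (B.domRestrict₁₂ S T)
    have hφ : Function.Injective φ := by
      rw [injective_iff_map_eq_zero]
      intro x hx
      apply Subtype.ext
      apply hB.left x x.2
      intro y hy
      exact LinearMap.congr_fun hx ⟨y, hy⟩
    let ψ : T →ₗ[Ω] Module.Dual Ω S := (B.flip.domRestrict₁₂ T S)
    have hψ : Function.Injective ψ := by
      rw [injective_iff_map_eq_zero]
      intro y hy
      apply Subtype.ext
      apply hB.right y y.2
      intro x hx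
      exact LinearMap.congr_fun hy ⟨x, hx⟩
    have h2 : finrank Ω S = finrank Ω T := by
      apply le_antisymm
      · have := LinearMap.finrank_le_finrank_of_injective hφ
        rwa [Subspace.dual_finrank_eq] at this
      · have := LinearMap.finrank_le_finrank_of_injective hψ
        rwa [Subspace.dual_finrank_eq] at this
    have h3 : Function.Surjective φ := by
      rw [← LinearMap.injective_iff_surjective_of_finrank_eq_finrank
        (by rw [Subspace.dual_finrank_eq, h2])]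
      exact hφ
    obtain ⟨x, hx⟩ := h3 ((B r).domRestrict T)
    exact ⟨x, x.2, fun y hy => LinearMap.congr_fun hx ⟨y, hy⟩⟩
  obtain ⟨x, hx, hxy⟩ := h1
  obtain ⟨Z, v, hv, hv0, hvx⟩ := exists_dec hq D.FS D.wtS m hx
  refine ⟨v c, hv c, fun y hy => ?_⟩
  obtain ⟨Z', u, hu, hu0, huy⟩ := exists_dec hq D'.FS D'.wtS m' hy
  rw [← huy, map_sum, map_sum]
  refine Finset.sum_congr rfl fun c' _ => ?_
  by_cases hc : c' = -c
  · subst hc
    rw [← pair_dec hq D D' P hm (fun c => exc_mono D.le m c (hv c)) hv0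
      (exc_mono D'.le m' _ (hu (-c))), hvx]
    exact hxy _ (wtPart_le _ (hu (-c)))
  · rw [orth_exc hq D D' P hm (by omega) (exc_mono D.le m _ (hv c)) (exc_mono D'.le m' _ (hu c')),
      orth_exc hq D D' P hm (by omega) hr (exc_mono D'.le m' _ (hu c'))]

/-- The projections to `S` of the dominated elements of `G`. -/
def pr (q : ℕ) (m : ℤ) (G S T : Submodule Ω V) (F N : Module.End Ω V)
    (B : V →ₗ[Ω] V →ₗ[Ω] Ω) (c : ℤ) : Submodule Ω V where
  carrier := {x | x ∈ exc q m S F c ∧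
    ∃ r ∈ exc q m G F c, Dom (exc q m G F) N r ∧ ∀ y ∈ T, B x y = B r y}
  zero_mem' := ⟨Submodule.zero_mem _, 0, Submodule.zero_mem _, Dom.zero, fun y _ => rfl⟩
  add_mem' := by
    rintro x y ⟨hx, r, hr, hr', hxr⟩ ⟨hy, s, hs, hs', hys⟩
    exact ⟨Submodule.add_mem _ hx hy, r + s, Submodule.add_mem _ hr hs, hr'.add hs', fun z hz => by
      rw [map_add, map_add, LinearMap.add_apply, LinearMap.add_apply, hxr z hz, hys z hz]⟩
  smul_mem' := by
    rintro a x ⟨hx, r, hr, hr', hxr⟩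
    exact ⟨Submodule.smul_mem _ a hx, a • r, Submodule.smul_mem _ a hr, hr'.smul a, fun z hz => by
      rw [map_smul, map_smul, LinearMap.smul_apply, LinearMap.smul_apply, hxr z hz]⟩

lemma pr_le (c : ℤ) : pr q m G S T F N B c ≤ exc q m S F c := fun _ hx => hx.1

/-- The projections form a half centred family. -/
theorem pr_half (hq : 1 < q) (D : Datum q F N G S) (D' : Datum q F N G' T)
    (P : Pairing q d F N B) (hm : m + m' = 2 * d) (hB : Perf B S T) :
    Half (pr q m G S T F N B) N where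
  deg := by
    rintro c x ⟨hx, r, hr, hr', hxr⟩
    refine ⟨N_exc hq D.NS D.NF m c x hx, N r, N_exc hq D.NG D.NF m c r hr, hr'.N, fun y hy => ?_⟩
    rw [P.hN, P.hN, hxr _ (D'.NS y hy)]
  surj := by
    rintro a x ⟨hx, r, hr, hr', hxr⟩
    obtain ⟨r', hr1, hr2, hr3⟩ := hr'.surj (indep_exc hq D.FG D.wt m) a hr
    obtain ⟨x', hx', hxr'⟩ := exists_proj hq D D' P hm hB hr1
    refine ⟨x', ⟨hx', r', hr1, hr2, hxr'⟩, ?_⟩
    have hNT : ∀ (j : ℕ), ∀ y ∈ T, (N ^ j) y ∈ T := by
      intro j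
      induction j with
      | zero => intro y hy; simpa using hy
      | succ j ih => intro y hy; rw [pow_succ', Module.End.mul_apply]; exact D'.NS _ (ih y hy)
    have hNS : ∀ (j : ℕ), ∀ y ∈ S, (N ^ j) y ∈ S := by
      intro j
      induction j with
      | zero => intro y hy; simpa using hy
      | succ j ih => intro y hy; rw [pow_succ', Module.End.mul_apply]; exact D.NS _ (ih y hy)
    have h1 : (N ^ a) x' - x = 0 := by
      apply hB.left
      · exact Submodule.sub_mem _ (hNS a x' (wtPart_le _ hx')) (wtPart_le _ hx)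
      · intro y hy
        rw [map_sub, LinearMap.sub_apply, skew_pow P.hN, hxr' _ (hNT a y hy), hxr y hy, ← hr3,
          skew_pow P.hN, sub_self]
    exact sub_eq_zero.1 h1

/-- Reached elements of `S` lie in the sum of the projections. -/
lemma mem_pr (hq : 1 < q) (D : Datum q F N G S) {x : V} (hx : x ∈ S)
    (hd : Dom (exc q m G F) N x) : x ∈ ⨆ c, pr q m G S T F N B c := by
  classical
  obtain ⟨Z, v, hv, hv0, hvx⟩ := exists_dec hq D.FS D.wtS m hx
  obtain ⟨Z', u, hu, hux⟩ := hd.sum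
  have hind := indep_exc hq D.FG D.wt m
  rw [iSupIndep_iff_finsetSum_eq_zero_imp_eq_zero] at hind
  have h1 : ∑ c ∈ Z ∪ Z', (v c - if c ∈ Z' then u c else 0) = 0 := by
    rw [Finset.sum_sub_distrib, ← Finset.sum_filter, Finset.filter_mem_eq_inter,
      Finset.inter_eq_right.2 Finset.subset_union_right, hux, sub_eq_zero, ← hvx]
    symm
    refine Finset.sum_subset Finset.subset_union_left fun c _ hc => hv0 c hc
  have h2 : ∀ c ∈ Z, Dom (exc q m G F) N (v c) := by
    intro c hc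
    have h3 := hind _ _ (fun c _ => ?_) h1 c (Finset.mem_union_left _ hc)
    · rw [sub_eq_zero] at h3
      rw [h3]
      split_ifs with h
      · exact (hu c).2
      · exact Dom.zero
    · refine Submodule.sub_mem _ (exc_mono D.le m c (hv c)) ?_
      split_ifs with h
      · exact (hu c).1
      · exact Submodule.zero_mem _
  rw [← hvx]
  refine Submodule.sum_mem _ fun c hc => Submodule.mem_iSup_of_mem c ?_
  exact ⟨hv c, v c, exc_mono D.le m c (hv c), h2 c hc, fun y _ => rfl⟩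

/-- Dimension of a sum of independent subspaces. -/
lemma finrank_sum {W : ℤ → Submodule Ω V} (hW : iSupIndep W) (Z : Finset ℤ) :
    finrank Ω (⨆ c ∈ Z, W c : Submodule Ω V) = ∑ c ∈ Z, finrank Ω (W c) := by
  classical
  induction Z using Finset.induction_on with
  | empty => simp
  | insert c Z hc ih =>
    rw [Finset.iSup_insert, Finset.sum_insert hc, ← ih]
    have h1 : W c ⊓ (⨆ c ∈ Z, W c) = ⊥ := by
      have h2 := hW c
      rw [disjoint_iff] at h2
      rw [eq_bot_iff, ← h2]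
      refine inf_le_inf_left _ (iSup₂_le fun j hj => ?_)
      exact le_iSup₂_of_le j (fun h => hc (h ▸ hj)) le_rfl
    have h3 := Submodule.finrank_sup_add_finrank_inf_eq (W c) (⨆ c ∈ Z, W c)
    rw [h1, finrank_bot, add_zero] at h3
    exact h3

/-- Only finitely many excesses occur. -/
lemma exists_bound (hq : 1 < q) (hS : ∀ x ∈ S, F x ∈ S) (hw : HasWt q S F) (m : ℤ) :
    ∃ C : ℕ, ∀ c : ℤ, ((C : ℤ) < c ∨ c < -(C : ℤ)) → exc q m S F c = ⊥ := by
  have h1 : {c | exc q m S F c ≠ ⊥}.Finite :=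
    WellFoundedGT.finite_ne_bot_of_iSupIndep (indep_exc hq hS hw m)
  obtain ⟨a, ha⟩ := h1.bddAbove
  obtain ⟨b, hb⟩ := h1.bddBelow
  refine ⟨a.natAbs + b.natAbs, fun c hc => ?_⟩
  by_contra h
  have h2 := ha (show c ∈ {c | exc q m S F c ≠ ⊥} from h)
  have h3 := hb (show c ∈ {c | exc q m S F c ≠ ⊥} from h)
  omega

lemma iSup_eq_of_bound {W : ℤ → Submodule Ω V} {C : ℕ}
    (hC : ∀ c : ℤ, ((C : ℤ) < c ∨ c < -(C : ℤ)) → W c = ⊥) :
    ⨆ c, W c = ⨆ c ∈ Finset.Icc (-(C : ℤ)) C, W c := by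
  apply le_antisymm
  · refine iSup_le fun c => ?_
    by_cases hc : c ∈ Finset.Icc (-(C : ℤ)) C
    · exact le_iSup₂_of_le c hc le_rfl
    · rw [hC c (by rw [Finset.mem_Icc] at hc; omega)]
      exact bot_le
  · exact iSup₂_le fun c _ => le_iSup W c

/-- Orthogonal subspaces of a perfect pairing. -/
lemma finrank_orth {A₁ W₁ A₂ W₂ : Submodule Ω V} (h1 : A₁ ≤ W₁) (h2 : A₂ ≤ W₂)
    (hl : ∀ x ∈ W₁, (∀ y ∈ W₂, B x y = 0) → x = 0) (ho : ∀ x ∈ A₁, ∀ y ∈ A₂, B x y = 0) :
    finrank Ω A₁ + finrank Ω A₂ ≤ finrank Ω W₂ := by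
  let A₂' : Submodule Ω W₂ := A₂.comap W₂.subtype
  have e1 : finrank Ω A₂' = finrank Ω A₂ := finrank_comap h2
  let φ : A₁ →ₗ[Ω] A₂'.dualAnnihilator :=
    LinearMap.codRestrict _ (B.domRestrict₁₂ A₁ W₂) (fun x => by
      rw [Submodule.mem_dualAnnihilator]
      intro y hy
      exact ho x x.2 y hy)
  have hφ : Function.Injective φ := by
    rw [injective_iff_map_eq_zero]
    intro x hx
    apply Subtype.ext
    apply hl x (h1 x.2)
    intro y hy
    have := congrArg Subtype.val hx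
    exact LinearMap.congr_fun this ⟨y, hy⟩
  have h3 := LinearMap.finrank_le_finrank_of_injective hφ
  have h4 := Subspace.finrank_add_finrank_dualAnnihilator_eq A₂'
  omega

/-- **The number of wrong eigenvalues.** -/
theorem wrong_le (hq : 1 < q) (D : Datum q F N G S) (D' : Datum q F N G' T)
    (P : Pairing q d F N B) (hm : m + m' = 2 * d) (hB : Perf B S T) {M : ℤ → Submodule Ω V}
    (hM : IsMonodromyFiltrationOn S N M) {R R' : Set V}
    (hR : ∀ x ∈ R, x ∈ S ∧ Dom (exc q m G F) N x)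
    (hR' : ∀ x ∈ R', x ∈ T ∧ Dom (exc q m' G' F) N x) :
    wrong q m S F M ≤ ((finrank Ω S : ℤ) - Set.finrank Ω R) +
      ((finrank Ω T : ℤ) - Set.finrank Ω R') := by
  classical
  have hm' : m' + m = 2 * d := by omega
  have half := pr_half hq D D' P hm hB
  have half' := pr_half hq D' D P.flip hm' hB.flip
  obtain ⟨C₁, hC₁⟩ := exists_bound hq D.FS D.wtS m
  obtain ⟨C₂, hC₂⟩ := exists_bound hq D'.FS D'.wtS m'
  obtain ⟨C, hC, hC'⟩ : ∃ C : ℕ, (∀ c : ℤ, ((C : ℤ) < c ∨ c < -(C : ℤ)) → exc q m S F c = ⊥) ∧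
      (∀ c : ℤ, ((C : ℤ) < c ∨ c < -(C : ℤ)) → exc q m' T F c = ⊥) := by
    refine ⟨C₁ + C₂, fun c hc => hC₁ c ?_, fun c hc => hC₂ c ?_⟩ <;> (push_cast at hc; omega)
  set Q := pr q m G S T F N B with hQ
  set Q' := pr q m' G' T S F N B.flip with hQ'
  have hQC : ∀ c : ℤ, ((C : ℤ) < c ∨ c < -(C : ℤ)) → Q c = ⊥ := fun c hc => by
    rw [eq_bot_iff, ← hC c hc]; exact pr_le c
  have hQC' : ∀ c : ℤ, ((C : ℤ) < c ∨ c < -(C : ℤ)) → Q' c = ⊥ := fun c hc => by
    rw [eq_bot_iff, ← hC' c hc]; exact pr_le c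
  have hind := indep_exc hq D.FS D.wtS m
  have hind' := indep_exc hq D'.FS D'.wtS m'
  -- the dimensions
  have e1 : (finrank Ω S : ℤ) = ∑ c ∈ Finset.Icc (-(C : ℤ)) C, (finrank Ω (exc q m S F c) : ℤ) := by
    have h1 := iSup_exc D.FS D.wtS m
    rw [iSup_eq_of_bound hC] at h1
    have h2 := finrank_sum hind (Finset.Icc (-(C : ℤ)) C)
    rw [h1] at h2
    exact_mod_cast h2
  have e2 : (finrank Ω T : ℤ) =
      ∑ c ∈ Finset.Icc (-(C : ℤ)) C, (finrank Ω (exc q m' T F (-c)) : ℤ) := by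
    have h1 := iSup_exc D'.FS D'.wtS m'
    rw [iSup_eq_of_bound hC'] at h1
    have h2 := finrank_sum hind' (Finset.Icc (-(C : ℤ)) C)
    rw [h1] at h2
    have h3 : ∑ c ∈ Finset.Icc (-(C : ℤ)) C, (finrank Ω (exc q m' T F (-c)) : ℤ) =
        ∑ c ∈ Finset.Icc (-(C : ℤ)) C, (finrank Ω (exc q m' T F c) : ℤ) := by
      refine Finset.sum_nbij' (fun c => -c) (fun c => -c) ?_ ?_ ?_ ?_ ?_
      · intro c hc; rw [Finset.mem_Icc] at hc ⊢; omega
      · intro c hc; rw [Finset.mem_Icc] at hc ⊢; omega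
      · intro c _; simp
      · intro c _; simp
      · intro c _; rfl
    rw [h3]
    exact_mod_cast h2
  have e3 : (Set.finrank Ω R : ℤ) ≤ ∑ c ∈ Finset.Icc (-(C : ℤ)) C, (finrank Ω (Q c) : ℤ) := by
    have h1 : Submodule.span Ω R ≤ ⨆ c, Q c :=
      Submodule.span_le.2 fun x hx => mem_pr hq D (hR x hx).1 (hR x hx).2
    rw [iSup_eq_of_bound hQC] at h1
    have h2 := Submodule.finrank_mono h1
    rw [finrank_sum (hind.mono fun c => pr_le c)] at h2
    exact_mod_cast h2
  have e4 : (Set.finrank Ω R' : ℤ) ≤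
      ∑ c ∈ Finset.Icc (-(C : ℤ)) C, (finrank Ω (Q' (-c)) : ℤ) := by
    have h1 : Submodule.span Ω R' ≤ ⨆ c, Q' c :=
      Submodule.span_le.2 fun x hx => mem_pr hq D' (hR' x hx).1 (hR' x hx).2
    rw [iSup_eq_of_bound hQC'] at h1
    have h2 := Submodule.finrank_mono h1
    rw [finrank_sum (hind'.mono fun c => pr_le c)] at h2
    have h3 : ∑ c ∈ Finset.Icc (-(C : ℤ)) C, (finrank Ω (Q' (-c)) : ℤ) =
        ∑ c ∈ Finset.Icc (-(C : ℤ)) C, (finrank Ω (Q' c) : ℤ) := by
      refine Finset.sum_nbij' (fun c => -c) (fun c => -c) ?_ ?_ ?_ ?_ ?_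
      · intro c hc; rw [Finset.mem_Icc] at hc ⊢; omega
      · intro c hc; rw [Finset.mem_Icc] at hc ⊢; omega
      · intro c _; simp
      · intro c _; simp
      · intro c _; rfl
    rw [h3]
    exact_mod_cast h2
  -- the sum
  have e5 : ∑ᶠ s : ℤ, good q m S F M s = ∑ s ∈ Finset.Icc (-(C : ℤ)) C, good q m S F M s := by
    refine finsum_eq_sum_of_support_subset _ fun s hs => ?_
    rw [Finset.mem_coe, Finset.mem_Icc]
    by_contra h
    apply hs
    have h1 : wtPart q S F (m + s) = ⊥ := hC s (by omega)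
    unfold good
    rw [h1, inf_bot_eq, inf_bot_eq, finrank_bot, sub_self]
  -- the estimate
  have e6 : ∀ s : ℤ, (finrank Ω (Q s) : ℤ) + finrank Ω (Q' (-s)) -
      finrank Ω (exc q m' T F (-s)) ≤ good q m S F M s := by
    intro s
    have h1 : finrank Ω (Q s) ≤ finrank Ω (M s ⊓ wtPart q S F (m + s) : Submodule Ω V) := by
      refine Submodule.finrank_mono (le_inf ?_ (pr_le s))
      exact half.le hM (fun c => (pr_le c).trans (wtPart_le _)) (C := C) hQC s
    have h2 : finrank Ω (M (s - 1) ⊓ wtPart q S F (m + s) : Submodule Ω V) +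
        finrank Ω (Q' (-s)) ≤ finrank Ω (exc q m' T F (-s)) := by
      refine finrank_orth (B := B) (W₁ := exc q m S F s) inf_le_right (pr_le _) ?_ ?_
      · intro x hx h
        refine hB.left x (wtPart_le _ hx) fun y hy => ?_
        obtain ⟨Z', u, hu, hu0, huy⟩ := exists_dec hq D'.FS D'.wtS m' hy
        rw [← huy, map_sum]
        refine Finset.sum_eq_zero fun c' _ => ?_
        by_cases hc : c' = -s
        · subst hc
          exact h _ (hu _)
        · exact orth_exc hq D D' P hm (by omega) (exc_mono D.le m _ hx)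
            (exc_mono D'.le m' _ (hu c'))
      · intro x hx y hy
        exact half'.orth hM P.hN (show s - 1 < s by omega) (Submodule.mem_inf.1 hx).1 hy
    unfold good
    omega
  have e7 := Finset.sum_le_sum fun s (_ : s ∈ Finset.Icc (-(C : ℤ)) C) => e6 s
  rw [Finset.sum_sub_distrib, Finset.sum_add_distrib, ← e2] at e7
  unfold wrong
  rw [e5]
  linarith

/-- **Purity.** -/
theorem pure_of (hq : 1 < q) (D : Datum q F N G S) (D' : Datum q F N G' T)
    (P : Pairing q d F N B) (hm : m + m' = 2 * d) (hB : Perf B S T)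
    (hR : ∀ x ∈ S, Dom (exc q m G F) N x) (hR' : ∀ x ∈ T, Dom (exc q m' G' F) N x) :
    IsPure q m S F N := by
  classical
  have hm' : m' + m = 2 * d := by omega
  have half := pr_half hq D D' P hm hB
  have half' := pr_half hq D' D P.flip hm' hB.flip
  have h1 : ∀ c, pr q m G S T F N B c = exc q m S F c := fun c => by
    refine le_antisymm (pr_le c) fun x hx => ?_
    exact ⟨hx, x, exc_mono D.le m c hx, hR x (wtPart_le _ hx), fun y _ => rfl⟩
  have h2 : ∀ c, pr q m' G' T S F N B.flip c = exc q m' T F c := fun c => by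
    refine le_antisymm (pr_le c) fun x hx => ?_
    exact ⟨hx, x, exc_mono D'.le m' c hx, hR' x (wtPart_le _ hx), fun y _ => rfl⟩
  rw [isPure_iff hq D.stS D.NF D.wtS]
  intro a
  refine ⟨fun x hx h0 => ?_, fun y hy => ?_⟩
  · refine hB.left x (wtPart_le _ hx) fun y hy => ?_
    obtain ⟨Z', u, hu, hu0, huy⟩ := exists_dec hq D'.FS D'.wtS m' hy
    rw [← huy, map_sum]
    refine Finset.sum_eq_zero fun c' _ => ?_
    by_cases hc : c' = -(a : ℤ)
    · subst hc
      have h3 := hu (-(a : ℤ))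
      rw [← h2] at h3
      obtain ⟨z, hz, hzu⟩ := half'.surj a _ h3
      rw [← hzu]
      have h4 := skew_pow P.hN a x z
      rw [h0, map_zero, LinearMap.zero_apply] at h4
      rcases mul_eq_zero.1 h4.symm with h5 | h5
      · exact absurd h5 (pow_ne_zero _ (neg_ne_zero.2 one_ne_zero))
      · exact h5
    · exact orth_exc hq D D' P hm (by omega) (exc_mono D.le m _ hx)
        (exc_mono D'.le m' _ (hu c'))
  · rw [← h1] at hy
    obtain ⟨x, hx, hxy⟩ := half.surj a y hy
    rw [h1] at hx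
    exact ⟨x, hx, hxy⟩

end

end Pool.Agent.K1H13.M
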