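import Pool.Agent.H914R2.CorrDefs
import Pool.Agent.Y143.MonDefs

/-!
# The weight-monodromy conjecture and classes reached by correspondences: definitions

`K` is a local field with finite residue field with `q` elements and `W` is the cohomology of the
smooth projective varieties over `K` with coefficients in an algebraically closed field: for
instance the `p`-adic cohomology `H_pst,p` (with coefficients in an algebraic closure of `P_0`), or
the `ℓ`-adic cohomology. Tate twists are suppressed.
-/

set_option autoImplicit false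

open Module CategoryTheory AlgebraicGeometry

universe u v

namespace Pool.Agent.K1H13.M

open Pool.Agent.Y143

section Lin

variable {Ω V : Type v} [Field Ω] [CharZero Ω] [AddCommGroup V] [Module Ω V]

/-- The part of weight `w` of the subspace `S`: the sum of the generalized eigenspaces of `F` in `S`
for the `q`-Weil numbers of weight `w`. -/
def wtPart (q : ℕ) (S : Submodule Ω V) (F : Module.End Ω V) (w : ℤ) : Submodule Ω V :=
  ⨆ (α : Ω) (_ : IsWeilNumber q w α), S ⊓ F.maxGenEigenspace α

/-- The weight-monodromy conjecture for the part `S` of `H^m`: the eigenvalues of `F` on the graded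
pieces `M_s / M_(s - 1)` of the monodromy filtration `M` of `S` are `q`-Weil numbers of weight
`m + s`, for all `s`. -/
def IsPure (q : ℕ) (m : ℤ) (S : Submodule Ω V) (F N : Module.End Ω V) : Prop :=
  ∃ M : ℤ → Submodule Ω V, IsMonodromyFiltrationOn S N M ∧
    ∀ (s : ℤ) (α : Ω) (x : V), x ∈ M s → x ∉ M (s - 1) → F x - α • x ∈ M (s - 1) →
      IsWeilNumber q (m + s) α

/-- The dimension of the part of weight `m + s` of the graded piece `M_s / M_(s - 1)`. -/
noncomputable def good (q : ℕ) (m : ℤ) (S : Submodule Ω V) (F : Module.End Ω V)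
    (M : ℤ → Submodule Ω V) (s : ℤ) : ℤ :=
  (finrank Ω (M s ⊓ wtPart q S F (m + s) : Submodule Ω V) : ℤ) -
    finrank Ω (M (s - 1) ⊓ wtPart q S F (m + s) : Submodule Ω V)

/-- The number of the eigenvalues of `F` on the graded pieces `M_s / M_(s - 1)` of `S`, for all `s`,
which do not have the weight `m + s` predicted by the conjecture. -/
noncomputable def wrong (q : ℕ) (m : ℤ) (S : Submodule Ω V) (F : Module.End Ω V)
    (M : ℤ → Submodule Ω V) : ℤ := (finrank Ω S : ℤ) - ∑ᶠ s : ℤ, good q m S F M s

/-- The subspace `S` is stable under `F` and `N`. -/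
def Stable (S : Submodule Ω V) (F N : Module.End Ω V) : Prop := ∀ x ∈ S, F x ∈ S ∧ N x ∈ S

end Lin

section Alg

variable {Ω A : Type v} [Field Ω] [CharZero Ω] [Ring A] [Algebra Ω A]

/-- The pairing `tr (x y)` between `S` and `T` is perfect. -/
structure IsPerfect (tr : A →ₗ[Ω] Ω) (S T : Submodule Ω A) : Prop where
  left : ∀ x ∈ S, (∀ y ∈ T, tr (x * y) = 0) → x = 0
  right : ∀ y ∈ T, (∀ x ∈ S, tr (x * y) = 0) → y = 0

/-- The known properties of the actions of a geometric Frobenius element `F` and of the monodromy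
operator `N` on the cohomology of a variety of dimension `d`: the eigenvalues of `F` are `q`-Weil
numbers of integral weights, and the weight-monodromy conjecture holds in the degrees `m ≤ 2`. -/
structure IsLocalCoh (q d : ℕ) (gr : ℕ → Submodule Ω A) (tr : A →ₗ[Ω] Ω) (F N : Module.End Ω A) :
    Prop where
  stable : ∀ m, Stable (gr m) F N
  N_F : ∀ x : A, N (F x) = (q : Ω) • F (N x)
  F_mul : ∀ x y : A, F (x * y) = F x * F y
  N_mul : ∀ x y : A, N (x * y) = N x * y + x * N y
  tr_F : ∀ x : A, tr (F x) = (q : Ω) ^ d * tr x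
  tr_N : ∀ x : A, tr (N x) = 0
  weil : ∀ (m : ℕ) (α : Ω) (x : A), x ∈ gr m → x ≠ 0 → F x = α • x → ∃ w : ℤ, IsWeilNumber q w α
  low : ∀ m : ℕ, m ≤ 2 → IsPure q m (gr m) F N

/-- The hard Lefschetz theorem for the class `l` in degree two on a variety of dimension `d`. -/
def HardLefschetz (d : ℕ) (gr : ℕ → Submodule Ω A) (l : A) : Prop :=
  ∀ m k, m + k = d → ∀ x ∈ gr m, l ^ k * x = 0 → x = 0

/-- The subalgebra generated by the elements of degree at most two. -/
def lowAlg (gr : ℕ → Submodule Ω A) : Subalgebra Ω A :=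
  Algebra.adjoin Ω {x | ∃ m ≤ 2, x ∈ gr m}

/-- The part of degree `m` of the subalgebra generated by the elements of degree at most two. -/
def lowPart (gr : ℕ → Submodule Ω A) (m : ℕ) : Submodule Ω A :=
  gr m ⊓ (lowAlg gr).toSubmodule

end Alg

open Pool.Agent.H914 Pool.Agent.H914.VarClass Pool.Agent.H914.VarClass.Obj
  Pool.Agent.H914.WeilCohomology

variable {k : Type u} [Field k] {𝒱 : VarClass k} {ops : CycleOps 𝒱}

/-- The endomorphisms of the cohomology of `X`. -/
abbrev Op (W : WeilCohomology.{u, v} ops) (X : 𝒱.Obj) : Type v := Module.End W.K (W.H X)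

/-- The subspaces of the cohomology of `X`. -/
abbrev Sub (W : WeilCohomology.{u, v} ops) (X : 𝒱.Obj) : Type v := Submodule W.K (W.H X)

/-- The class `x` has degree `m`. -/
def HasDeg (W : WeilCohomology.{u, v} ops) (X : 𝒱.Obj) (m : ℕ) (x : W.H X) : Prop := x ∈ W.gr X m

/-- The value of an operator. -/
def app {W : WeilCohomology.{u, v} ops} {X : 𝒱.Obj} (F : Op W X) (x : W.H X) : W.H X := F x

/-- The pull-back of a class. -/
def pull (W : WeilCohomology.{u, v} ops) {X Y : 𝒱.Obj} (f : X ⟶ Y) (y : W.H Y) : W.H X := W.map f y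

/-- The operators `F X` commute with pull-backs. -/
def CommutesWithPull (W : WeilCohomology.{u, v} ops) (F : ∀ X : 𝒱.Obj, Op W X) : Prop :=
  ∀ (X Y : 𝒱.Obj) (f : X ⟶ Y) (y : W.H Y), app (F X) (pull W f y) = pull W f (app (F Y) y)

/-- The operators `F X` multiply the classes of cycles of codimension `p` by `c p`. -/
def ScalesCycles (W : WeilCohomology.{u, v} ops) (F : ∀ X : 𝒱.Obj, Op W X) (c : ℕ → W.K) : Prop :=
  ∀ (X : 𝒱.Obj) (p : ℕ) (z : X.Cycles), X.IsCyc p z → app (F X) (W.cl X z) = c p • W.cl X z

/-- `z` is a divisor, and the hard Lefschetz theorem holds for its class. -/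
def IsLefschetz (W : WeilCohomology.{u, v} ops) (X : 𝒱.Obj) (z : X.Cycles) : Prop :=
  X.IsCyc 1 z ∧ HardLefschetz X.dim (W.gr X) (W.cl X z)

/-- The actions of a geometric Frobenius element and of the monodromy operator on the cohomology of
all varieties. They are compatible with pull-backs, the classes of cycles of codimension `p` (over
the local field) are multiplied by `q ^ p` and killed by the monodromy operator, and the hard
Lefschetz theorem holds for the class of a divisor (for instance an ample one). -/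
structure LocalAction (W : WeilCohomology.{u, v} ops) (q : ℕ) where
  /-- the action of a geometric Frobenius element -/
  F : ∀ X : 𝒱.Obj, Op W X
  /-- the monodromy operator -/
  N : ∀ X : 𝒱.Obj, Op W X
  isLocal : ∀ X, IsLocalCoh q X.dim (W.gr X) (W.tr X) (F X) (N X)
  pullF : CommutesWithPull W F
  pullN : CommutesWithPull W N
  cycF : ScalesCycles W F fun p => (q : W.K) ^ p
  cycN : ScalesCycles W N fun _ => 0
  hasLefschetz : ∀ X, ∃ z, IsLefschetz W X z

namespace LocalAction

variable {W : WeilCohomology.{u, v} ops} {q : ℕ} (D : LocalAction W q)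

lemma pull_F {X Y : 𝒱.Obj} (f : X ⟶ Y) (y : W.H Y) : D.F X (W.map f y) = W.map f (D.F Y y) :=
  D.pullF X Y f y

lemma pull_N {X Y : 𝒱.Obj} (f : X ⟶ Y) (y : W.H Y) : D.N X (W.map f y) = W.map f (D.N Y y) :=
  D.pullN X Y f y

lemma cl_F {X : 𝒱.Obj} {p : ℕ} {z : X.Cycles} (hz : X.IsCyc p z) :
    D.F X (W.cl X z) = (q : W.K) ^ p • W.cl X z := D.cycF X p z hz

lemma cl_N {X : 𝒱.Obj} {p : ℕ} {z : X.Cycles} (hz : X.IsCyc p z) : D.N X (W.cl X z) = 0 := by
  have h := D.cycN X p z hz
  rw [zero_smul] at h
  exact h

include D in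
lemma lefschetz (X : 𝒱.Obj) : ∃ z, X.IsCyc 1 z ∧ HardLefschetz X.dim (W.gr X) (W.cl X z) :=
  D.hasLefschetz X

end LocalAction

/-- The action of a cycle on `Y × X` on the cohomology, from `H(Y)` to `H(X)`. -/
noncomputable def act (W : WeilCohomology.{u, v} ops) {Y X : 𝒱.Obj} (z : (Y.prod X).Cycles)
    (y : W.H Y) : W.H X := W.corr (W.cl _ z) y

variable {W : WeilCohomology.{u, v} ops} {q : ℕ}

/-- The weight-monodromy conjecture for `H^m(X)`. -/
def MW (D : LocalAction W q) (X : 𝒱.Obj) (m : ℕ) : Prop :=
  IsPure q m (W.gr X m) (D.F X) (D.N X)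

/-- `S` is a subspace of `H^m(X)` which is stable under the Frobenius and under the monodromy
operator. -/
def IsPart (D : LocalAction W q) (X : 𝒱.Obj) (m : ℕ) (S : Sub W X) : Prop :=
  S ≤ W.gr X m ∧ Stable S (D.F X) (D.N X)

/-- The weight-monodromy conjecture holds for the part `S` of `H^m(X)`. -/
def PurePart (D : LocalAction W q) (X : 𝒱.Obj) (m : ℕ) (S : Sub W X) : Prop :=
  IsPart D X m S ∧ IsPure q m S (D.F X) (D.N X)

/-- The reached classes of degree `m` in the cohomology of `X`: the smallest system of subspaces of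
the cohomology groups of all varieties which contains the groups `H^m` for `m ≤ 2` and all stable
subspaces of cohomology groups for which the weight-monodromy conjecture holds, and which is stable
under cup products, algebraic correspondences (the actions of cycles of codimension `p` on products
`Y × X`, which map `H^m(Y)` to `H^m'(X)` for `m' = m + 2 (p - dim Y)`) and the inverses of the
isomorphisms `l ^ k : H^m(X) → H^(m + 2 k)(X)`, `m + k = dim X`, of the hard Lefschetz theorem. -/
inductive Reached (D : LocalAction W q) : ∀ X : 𝒱.Obj, ℕ → W.H X → Prop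
  | low {X : 𝒱.Obj} {m : ℕ} {x : W.H X} : m ≤ 2 → HasDeg W X m x → Reached D X m x
  | part {X : 𝒱.Obj} {m : ℕ} {S : Sub W X} {x : W.H X} : PurePart D X m S → x ∈ S →
      Reached D X m x
  | mul {X : 𝒱.Obj} {m m' : ℕ} {x y : W.H X} : Reached D X m x → Reached D X m' y →
      Reached D X (m + m') (x * y)
  | act {Y X : 𝒱.Obj} {m m' p : ℕ} {z : (Y.prod X).Cycles} {y : W.H Y} : (Y.prod X).IsCyc p z →
      m' + 2 * Y.dim = m + 2 * p → Reached D Y m y → Reached D X m' (act W z y)
  | lef {X : 𝒱.Obj} {m k : ℕ} {z : X.Cycles} {x : W.H X} : IsLefschetz W X z → m + k = X.dim →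
      HasDeg W X m x → Reached D X (m + 2 * k) (W.cl X z ^ k * x) → Reached D X m x
  | add {X : 𝒱.Obj} {m : ℕ} {x y : W.H X} : Reached D X m x → Reached D X m y →
      Reached D X m (x + y)
  | smul {X : 𝒱.Obj} {m : ℕ} {x : W.H X} (a : W.K) : Reached D X m x → Reached D X m (a • x)

/-- All classes in the subspace `S` of `H^m(X)` are reached. -/
def AllReached (D : LocalAction W q) (X : 𝒱.Obj) (m : ℕ) (S : Sub W X) : Prop :=
  ∀ x ∈ S, Reached D X m x

/-- The reached classes in the subspace `S` of `H^m(X)`. -/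
def reachedIn (D : LocalAction W q) (X : 𝒱.Obj) (m : ℕ) (S : Sub W X) : Set (W.H X) :=
  {x | x ∈ S ∧ Reached D X m x}

/-- The codimension of the space of the reached classes in the subspace `S` of `H^m(X)`. -/
noncomputable def defect (D : LocalAction W q) (X : 𝒱.Obj) (m : ℕ) (S : Sub W X) : ℤ :=
  (finrank W.K S : ℤ) - Set.finrank W.K (reachedIn D X m S)

/-- At most `b` eigenvalues of `F` on the graded pieces of the monodromy filtration of the part `S`
of `H^m(X)` do not have the predicted weights. -/
def WrongLE (D : LocalAction W q) (X : 𝒱.Obj) (m : ℕ) (S : Sub W X) (b : ℤ) : Prop :=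
  ∀ M : ℤ → Sub W X, IsMonodromyFiltrationOn S (D.N X) M → wrong q m S (D.F X) M ≤ b

/-- The stable parts `S` of `H^m(X)` and `T` of `H^m'(X)` are in perfect duality under the Poincare
pairing. -/
def DualParts (D : LocalAction W q) (X : 𝒱.Obj) (m m' : ℕ) (S T : Sub W X) : Prop :=
  IsPart D X m S ∧ IsPart D X m' T ∧ IsPerfect (W.tr X) S T

end Pool.Agent.K1H13.M
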