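import Pool.Agent.K1H13.M.Lin
import Pool.Agent.Y163.MW.Lin
import Pool.Agent.Y141.MW.L
import Pool.Agent.Y153.MW.A
import Pool.Agent.Y614.MW.F
import Pool.Agent.Y664.MW.B2
import Pool.Agent.Y210.MW.B3

/-!
# Images of pure modules
-/

set_option autoImplicit false
set_option linter.unusedSectionVars false

open Module TensorProduct

universe v

namespace Pool.Agent.K1H13.M

open Pool.Agent.Y143 Pool.Agent.Y163.MW

section

variable {Ω : Type v} [Field Ω] [CharZero Ω] {V V' V'' : Type v} [AddCommGroup V] [Module Ω V]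
  [AddCommGroup V'] [Module Ω V'] [AddCommGroup V''] [Module Ω V'']

/-- `x` is in the image of a homomorphism from a pure module. -/
def Dom (gr : ℤ → Submodule Ω V) (N : Module.End Ω V) (x : V) : Prop :=
  ∃ (U : Type v) (_ : AddCommGroup U) (_ : Module Ω U) (ι : Type) (_ : Fintype ι)
    (b : Basis ι Ω U) (a : ι → ℤ) (n e h : Module.End Ω U) (f : U →ₗ[Ω] V),
    IsSl2 n b a e h ∧ (∀ i, f (b i) ∈ gr (a i)) ∧ (∀ u, f (n u) = N (f u)) ∧ ∃ u, f u = x

variable {gr : ℤ → Submodule Ω V} {gr' : ℤ → Submodule Ω V'} {gr'' : ℤ → Submodule Ω V''}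
  {N : Module.End Ω V} {N' : Module.End Ω V'} {N'' : Module.End Ω V''}

lemma Dom.map {x : V} (hx : Dom gr N x) (g : V →ₗ[Ω] V') (hg : ∀ c, ∀ x ∈ gr c, g x ∈ gr' c)
    (hN : ∀ x, g (N x) = N' (g x)) : Dom gr' N' (g x) := by
  obtain ⟨U, _, _, ι, _, b, a, n, e, h, f, hs, hb, hf, u, rfl⟩ := hx
  exact ⟨U, inferInstance, inferInstance, ι, inferInstance, b, a, n, e, h, g ∘ₗ f, hs, fun i => hg _ _ (hb i),
    fun u => by rw [LinearMap.comp_apply, hf, hN, LinearMap.comp_apply], u, rfl⟩

lemma Dom.smul {x : V} (hx : Dom gr N x) (r : Ω) : Dom gr N (r • x) := by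
  obtain ⟨U, _, _, ι, _, b, a, n, e, h, f, hs, hb, hf, u, rfl⟩ := hx
  exact ⟨U, inferInstance, inferInstance, ι, inferInstance, b, a, n, e, h, f, hs, hb, hf, r • u, by rw [map_smul]⟩

lemma isSl2_prod {U U' : Type v} [AddCommGroup U] [Module Ω U] [AddCommGroup U'] [Module Ω U']
    {ι ι' : Type} {b : Basis ι Ω U} {a : ι → ℤ} {n e h : Module.End Ω U}
    {b' : Basis ι' Ω U'} {a' : ι' → ℤ} {n' e' h' : Module.End Ω U'} (H : IsSl2 n b a e h)
    (H' : IsSl2 n' b' a' e' h') :
    IsSl2 (LinearMap.prodMap n n') (b.prod b') (Sum.elim a a') (LinearMap.prodMap e e')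
      (LinearMap.prodMap h h') := by
  constructor
  · rintro (i | i)
    · simp [H.wt]
    · simp [H'.wt]
  · refine LinearMap.ext fun ⟨x, y⟩ => ?_
    have h1 := LinearMap.congr_fun H.eN x
    have h2 := LinearMap.congr_fun H'.eN y
    simp only [LinearMap.sub_apply, Module.End.mul_apply, LinearMap.prodMap_apply,
      Prod.mk_sub_mk] at h1 h2 ⊢
    rw [h1, h2]
  · refine LinearMap.ext fun ⟨x, y⟩ => ?_
    have h1 := LinearMap.congr_fun H.hN x
    have h2 := LinearMap.congr_fun H'.hN y
    simp only [LinearMap.sub_apply, Module.End.mul_apply, LinearMap.prodMap_apply,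
      Prod.mk_sub_mk, LinearMap.smul_apply, Prod.smul_mk] at h1 h2 ⊢
    rw [h1, h2]
  · refine LinearMap.ext fun ⟨x, y⟩ => ?_
    have h1 := LinearMap.congr_fun H.he x
    have h2 := LinearMap.congr_fun H'.he y
    simp only [LinearMap.sub_apply, Module.End.mul_apply, LinearMap.prodMap_apply,
      Prod.mk_sub_mk, LinearMap.smul_apply, Prod.smul_mk] at h1 h2 ⊢
    rw [h1, h2]

lemma Dom.add {x y : V} (hx : Dom gr N x) (hy : Dom gr N y) : Dom gr N (x + y) := by
  obtain ⟨U, _, _, ι, _, b, a, n, e, h, f, hs, hb, hf, u, rfl⟩ := hx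
  obtain ⟨U', _, _, ι', _, b', a', n', e', h', f', hs', hb', hf', u', rfl⟩ := hy
  refine ⟨U × U', inferInstance, inferInstance, ι ⊕ ι', inferInstance, b.prod b', Sum.elim a a', LinearMap.prodMap n n',
    LinearMap.prodMap e e', LinearMap.prodMap h h', f.coprod f', isSl2_prod hs hs', ?_, ?_,
    (u, u'), ?_⟩
  · rintro (i | i)
    · simpa using hb i
    · simpa using hb' i
  · rintro ⟨v, v'⟩
    simp [hf, hf']
  · simp

/-- Products. -/
lemma Dom.mul (μ : V →ₗ[Ω] V' →ₗ[Ω] V'')
    (hμ : ∀ c c' x y, x ∈ gr c → y ∈ gr' c' → μ x y ∈ gr'' (c + c'))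
    (hN : ∀ x y, N'' (μ x y) = μ (N x) y + μ x (N' y)) {x : V} {y : V'} (hx : Dom gr N x)
    (hy : Dom gr' N' y) : Dom gr'' N'' (μ x y) := by
  obtain ⟨U, _, _, ι, _, b, a, n, e, h, f, hs, hb, hf, u, rfl⟩ := hx
  obtain ⟨U', _, _, ι', _, b', a', n', e', h', f', hs', hb', hf', u', rfl⟩ := hy
  refine ⟨U ⊗[Ω] U', inferInstance, inferInstance, ι × ι', inferInstance, b.tensorProduct b', fun p => a p.1 + a' p.2,
    _, _, _, TensorProduct.lift (μ.compl₁₂ f f'),
    Pool.Agent.Y210.MW.t_B3 Ω U U' n ι b a e h n' ι' b' a' e' h' hs hs', ?_, ?_, u ⊗ₜ u', ?_⟩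
  · rintro ⟨i, j⟩
    simp only [Basis.tensorProduct_apply, TensorProduct.lift.tmul, LinearMap.compl₁₂_apply]
    exact hμ _ _ _ _ (hb i) (hb' j)
  · intro t
    induction t using TensorProduct.induction_on with
    | zero => simp
    | tmul v v' =>
      simp only [LinearMap.add_apply, TensorProduct.map_tmul, LinearMap.id_apply, map_add,
        TensorProduct.lift.tmul, LinearMap.compl₁₂_apply, hf, hf', hN]
    | add s t hs ht => rw [map_add, map_add, hs, ht, map_add, map_add]
  · simp

/-- A dominated element of degree `-a` is `N ^ a x` for a dominated element of degree `a`. -/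
lemma Dom.surj (hgr : iSupIndep gr) (k : ℕ) {y : V} (hy : Dom gr N y) (hy' : y ∈ gr (-(k : ℤ))) :
    ∃ x ∈ gr k, Dom gr N x ∧ (N ^ k) x = y := by
  classical
  obtain ⟨U, _, _, ι, _, b, a, n, e, h, f, hs, hb, hf, u, rfl⟩ := hy
  have hfpow : ∀ (j : ℕ) (v : U), f ((n ^ j) v) = (N ^ j) (f v) := by
    intro j
    induction j with
    | zero => intro v; simp
    | succ j ih => intro v; rw [pow_succ', Module.End.mul_apply, hf, ih, pow_succ',
        Module.End.mul_apply]
  -- the components of `u`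
  let comp : ℤ → U := fun c => ∑ i ∈ Finset.univ.filter (fun i => a i = c), b.repr u i • b i
  have hcomp : ∀ c, f (comp c) ∈ gr c := by
    intro c
    simp only [comp, map_sum, map_smul]
    refine Submodule.sum_mem _ fun i hi => Submodule.smul_mem _ _ ?_
    rw [← (Finset.mem_filter.1 hi).2]
    exact hb i
  have hsum : ∑ c ∈ Finset.univ.image a, comp c = u := by
    simp only [comp]
    rw [Finset.sum_fiberwise_of_maps_to (fun i _ => Finset.mem_image_of_mem a (Finset.mem_univ i))]
    exact b.sum_repr u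
  have h1 : f (comp (-(k : ℤ))) = f u := by
    rw [iSupIndep_iff_finsetSum_eq_zero_imp_eq_zero] at hgr
    have h2 : ∑ c ∈ insert (-(k : ℤ)) (Finset.univ.image a),
        (f (comp c) - if c = -(k : ℤ) then f u else 0) = 0 := by
      rw [Finset.sum_sub_distrib, Finset.sum_ite_eq' (insert (-(k : ℤ)) (Finset.univ.image a))
        (-(k : ℤ)) (fun _ => f u), if_pos (Finset.mem_insert_self _ _), ← map_sum]
      have h3 : ∑ c ∈ insert (-(k : ℤ)) (Finset.univ.image a), comp c = u := by
        by_cases hk : (-(k : ℤ)) ∈ Finset.univ.image a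
        · rw [Finset.insert_eq_of_mem hk, hsum]
        · rw [Finset.sum_insert hk, hsum]
          have : comp (-(k : ℤ)) = 0 := by
            simp only [comp]
            rw [Finset.filter_eq_empty_iff.2, Finset.sum_empty]
            intro i _ hi
            exact hk (Finset.mem_image.2 ⟨i, Finset.mem_univ i, hi⟩)
          rw [this, zero_add]
      rw [h3, sub_self]
    have h4 := hgr _ _ (fun c _ => ?_) h2 (-(k : ℤ)) (Finset.mem_insert_self _ _)
    · rw [if_pos rfl, sub_eq_zero] at h4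
      exact h4
    · split_ifs with hc
      · rw [hc]
        exact Submodule.sub_mem _ (hcomp _) hy'
      · rw [sub_zero]
        exact hcomp c
  have hwt : h (comp (-(k : ℤ))) = (-(k : Ω)) • comp (-(k : ℤ)) := by
    simp only [comp, map_sum, map_smul, Finset.smul_sum]
    refine Finset.sum_congr rfl fun i hi => ?_
    rw [hs.wt, (Finset.mem_filter.1 hi).2, smul_comm]
    push_cast
    rfl
  obtain ⟨x, hx, hxy⟩ := (Pool.Agent.Y141.MW.stL Ω U n ι b a e h hs k).2 _ hwt
  have hxk : ∀ i, a i ≠ k → b.repr x i = 0 := by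
    intro i hi
    have h5 : h x = ∑ j, (b.repr x j * (a j : Ω)) • b j := by
      conv_lhs => rw [← b.sum_repr x]
      rw [map_sum]
      refine Finset.sum_congr rfl fun j _ => ?_
      rw [map_smul, hs.wt, smul_smul]
    have h6 : b.repr (h x) i = b.repr x i * (a i : Ω) := by
      rw [h5, map_sum]
      simp only [map_smul, Basis.repr_self, Finsupp.coe_finsetSum, Finset.sum_apply,
        Finsupp.smul_apply, smul_eq_mul, Finsupp.single_apply]
      rw [Finset.sum_eq_single i]
      · simp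
      · intro j _ hj
        simp [hj]
      · intro h7
        exact absurd (Finset.mem_univ i) h7
    rw [hx, map_smul, Finsupp.smul_apply, smul_eq_mul] at h6
    have h7 : b.repr x i * ((a i : Ω) - k) = 0 := by
      rw [mul_sub, ← h6]
      ring
    rcases mul_eq_zero.1 h7 with h8 | h8
    · exact h8
    · exfalso
      apply hi
      have : ((a i : ℤ) : Ω) = ((k : ℤ) : Ω) := by
        rw [sub_eq_zero] at h8
        rw [h8]
        push_cast
        rfl
      exact_mod_cast this
  refine ⟨f x, ?_, ⟨U, inferInstance, inferInstance, ι, inferInstance, b, a, n, e, h, f, hs, hb, hf, x, rfl⟩, ?_⟩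
  · rw [← b.sum_repr x, map_sum]
    refine Submodule.sum_mem _ fun i _ => ?_
    rw [map_smul]
    by_cases hi : a i = k
    · refine Submodule.smul_mem _ _ ?_
      rw [← hi]
      exact hb i
    · rw [hxk i hi, zero_smul]
      exact Submodule.zero_mem _
  · rw [← hfpow, hxy, h1]

/-- A dominated element is a sum of homogeneous dominated elements. -/
lemma Dom.sum {x : V} (hx : Dom gr N x) : ∃ (T : Finset ℤ) (v : ℤ → V),
    (∀ c, v c ∈ gr c ∧ Dom gr N (v c)) ∧ ∑ c ∈ T, v c = x := by
  classical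
  obtain ⟨U, _, _, ι, _, b, a, n, e, h, f, hs, hb, hf, u, rfl⟩ := hx
  refine ⟨Finset.univ.image a,
    fun c => f (∑ i ∈ Finset.univ.filter (fun i => a i = c), b.repr u i • b i), fun c => ⟨?_, ?_⟩,
    ?_⟩
  · beta_reduce
    rw [map_sum]
    refine Submodule.sum_mem _ fun i hi => ?_
    rw [map_smul, ← (Finset.mem_filter.1 hi).2]
    exact Submodule.smul_mem _ _ (hb i)
  · exact ⟨U, inferInstance, inferInstance, ι, inferInstance, b, a, n, e, h, f, hs, hb, hf, _, rfl⟩
  · rw [← map_sum,
      Finset.sum_fiberwise_of_maps_to (fun i _ => Finset.mem_image_of_mem a (Finset.mem_univ i)),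
      b.sum_repr u]

/-- The elements of a pure subspace are dominated. -/
lemma dom_of_centred {S : Submodule Ω V} [Module.Finite Ω S] {W : ℤ → Submodule Ω V}
    (hS : ∀ x ∈ S, N x ∈ S)
    (hi : DirectSum.IsInternal (fun c => (W c).comap S.subtype))
    (hW : ∀ c, ∀ x ∈ W c, N x ∈ W (c - 2))
    (hc : Centred (fun c => (W c).comap S.subtype) (N.restrict hS)) {x : V} (hx : x ∈ S) :
    Dom W N x := by
  obtain ⟨Z⟩ := Pool.Agent.Y153.MW.stA Ω S (fun c => (W c).comap S.subtype) (N.restrict hS) hi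
    (fun c x hx => hW c x hx)
  have h1 := (Pool.Agent.Y614.MW.stF Ω S _ _ hi Z).1 hc
  obtain ⟨e, h, hs⟩ := Pool.Agent.Y664.MW.t_B2 Ω S _ _ Z
  refine ⟨S, inferInstance, inferInstance, _, inferInstance, Z.b, _, _, e, h, S.subtype, hs, ?_, fun u => rfl, ⟨x, hx⟩, rfl⟩
  rintro ⟨s, i⟩
  have := Z.mem s i
  rw [h1 s] at this
  exact this

end

end Pool.Agent.K1H13.M
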