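import Pool.Agent.K1H13.M.Defs
import Pool.Agent.Y163.MW.Base

/-!
# Half centred families and the monodromy filtration
-/

set_option autoImplicit false

open Module

universe v

namespace Pool.Agent.K1H13.M

open Pool.Agent.Y143

variable {Ω V : Type v} [Field Ω] [AddCommGroup V] [Module Ω V]

/-- `N` has degree `-2` and `N ^ a : P a → P (-a)` is surjective for `a ≥ 0`. -/
structure Half (P : ℤ → Submodule Ω V) (N : Module.End Ω V) : Prop where
  deg : ∀ c, ∀ x ∈ P c, N x ∈ P (c - 2)
  surj : ∀ a : ℕ, ∀ y ∈ P (-(a : ℤ)), ∃ x ∈ P a, (N ^ a) x = y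

lemma pow_mem {P : ℤ → Submodule Ω V} {N : Module.End Ω V}
    (h : ∀ c, ∀ x ∈ P c, N x ∈ P (c - 2)) (k : ℕ) {c : ℤ} {x : V} (hx : x ∈ P c) :
    (N ^ k) x ∈ P (c - 2 * k) := by
  induction k with
  | zero => simpa using hx
  | succ k ih =>
    rw [pow_succ', Module.End.mul_apply]
    have := h _ _ ih
    rwa [show c - 2 * (k : ℤ) - 2 = c - 2 * ((k + 1 : ℕ) : ℤ) by push_cast; ring] at this

lemma pow_memM {S : Submodule Ω V} {N : Module.End Ω V} {M : ℤ → Submodule Ω V}
    (hM : IsMonodromyFiltrationOn S N M) (k : ℕ) {a : ℤ} {x : V} (hx : x ∈ M a) :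
    (N ^ k) x ∈ M (a - 2 * k) := pow_mem (fun c x hx => hM.map c x hx) k hx

/-- A half centred family is contained in the monodromy filtration. -/
theorem Half.le {S : Submodule Ω V} {N : Module.End Ω V} {M : ℤ → Submodule Ω V}
    (hM : IsMonodromyFiltrationOn S N M) {P : ℤ → Submodule Ω V} (hP : Half P N)
    (hS : ∀ c, P c ≤ S) {C : ℤ} (hC : ∀ c, (C < c ∨ c < -C) → P c = ⊥) (c : ℤ) : P c ≤ M c := by
  -- the deviation is at most `δ`
  have key : ∀ δ : ℕ, (∀ c, P c ≤ M (c + δ)) → ∀ c, P c ≤ M c := by
    intro δ
    induction δ with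
    | zero => intro h c; simpa using h c
    | succ δ ih =>
      intro h
      apply ih
      -- downward induction on `c`
      have h1 : ∀ (n : ℕ) (c : ℤ), C - n < c → P c ≤ M (c + δ) := by
        intro n
        induction n with
        | zero =>
          intro c hc
          rw [hC c (Or.inl (by simpa using hc))]
          exact bot_le
        | succ n ihn =>
          intro c hc
          rcases lt_or_ge (C - n) c with hlt | hge
          · exact ihn c hlt
          have hceq : c = C - n := by push_cast at hc; omega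
          intro x hx
          have hx1 := h c hx
          rcases lt_or_ge c 0 with hneg | hpos
          · -- `x = N ^ (-c) y`
            obtain ⟨a, ha⟩ := Int.eq_ofNat_of_zero_le (show 0 ≤ -c by omega)
            have hca : c = -(a : ℤ) := by omega
            rw [hca] at hx
            obtain ⟨y, hy, hyx⟩ := hP.surj a x hx
            have hy1 : y ∈ M ((a : ℤ) + δ) := ihn a (by omega) hy
            have hy2 := pow_memM hM a hy1
            rw [hyx] at hy2
            rwa [show (a : ℤ) + δ - 2 * a = c + δ by omega] at hy2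
          · obtain ⟨c', rfl⟩ := Int.eq_ofNat_of_zero_le hpos
            -- `a = c + δ + 1`
            have e1 : (N ^ (c' + (δ + 1))) x ∈ P (-((c' + 2 * (δ + 1) : ℕ) : ℤ)) := by
              have := pow_mem hP.deg (c' + (δ + 1)) hx
              convert this using 2
              push_cast; ring
            obtain ⟨y, hy, hyx⟩ := hP.surj _ _ e1
            have hy1 : y ∈ M (((c' + 2 * (δ + 1) : ℕ) : ℤ) + δ) :=
              ihn _ (by push_cast; push_cast at hceq; omega) hy
            have hy2 : (N ^ (δ + 1)) y ∈ M ((c' : ℤ) + δ) := by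
              have := pow_memM hM (δ + 1) hy1
              rwa [show (((c' + 2 * (δ + 1) : ℕ) : ℤ) + δ) - 2 * ((δ + 1 : ℕ) : ℤ) = (c' : ℤ) + δ by
                push_cast; ring] at this
            have hz : x - (N ^ (δ + 1)) y ∈ M ((c' : ℤ) + δ) := by
              have h3 := hM.inj (c' + (δ + 1)) (x - (N ^ (δ + 1)) y) ?_ ?_
              · convert h3 using 2
                push_cast; ring
              · refine (M _).sub_mem ?_ ?_
                · convert hx1 using 2
                  push_cast; ring
                · refine hM.mono ?_ hy2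
                  push_cast; omega
              · rw [map_sub, ← Module.End.mul_apply, ← pow_add,
                  show c' + (δ + 1) + (δ + 1) = c' + 2 * (δ + 1) by ring, hyx, sub_self]
                exact Submodule.zero_mem _
            have := (M ((c' : ℤ) + δ)).add_mem hz hy2
            rwa [sub_add_cancel] at this
      intro c
      exact h1 (C - c + 1).toNat c (by
        have := Int.self_le_toNat (C - c + 1)
        omega)
  obtain ⟨t, ht⟩ := hM.top
  refine key (t + C).toNat (fun c => ?_) c
  by_cases hc : c < -C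
  · rw [hC c (Or.inr hc)]
    exact bot_le
  · refine (hS c).trans ?_
    rw [← ht]
    apply hM.mono
    have := Int.self_le_toNat (t + C)
    omega

lemma skew_pow {B : V →ₗ[Ω] V →ₗ[Ω] Ω} {N : Module.End Ω V}
    (hB : ∀ x y, B (N x) y = - B x (N y)) (k : ℕ) (x y : V) :
    B ((N ^ k) x) y = (-1) ^ k * B x ((N ^ k) y) := by
  induction k generalizing x y with
  | zero => simp
  | succ k ih =>
    rw [pow_succ', Module.End.mul_apply, hB, ih, pow_succ, ← Module.End.mul_apply, ← pow_succ,
      pow_succ']
    ring

/-- The monodromy filtration of `S` is orthogonal to a half centred family. -/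
theorem Half.orth {S : Submodule Ω V} {N : Module.End Ω V} {M : ℤ → Submodule Ω V}
    (hM : IsMonodromyFiltrationOn S N M) {P : ℤ → Submodule Ω V} (hP : Half P N)
    {B : V →ₗ[Ω] V →ₗ[Ω] Ω} (hB : ∀ x y, B (N x) y = - B x (N y)) {b c : ℤ} (hbc : b < c)
    {x y : V} (hx : x ∈ M b) (hy : y ∈ P (-c)) : B x y = 0 := by
  obtain ⟨b₀, hb₀⟩ := hM.bot
  have key : ∀ (n : ℕ) (b c : ℤ), b ≤ b₀ + n → b < c → ∀ x y, x ∈ M b → y ∈ P (-c) →
      B x y = 0 := by
    intro n
    induction n with
    | zero =>
      intro b c hb _ x y hx _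
      have : x ∈ M b₀ := hM.mono (by simpa using hb) hx
      rw [hb₀, Submodule.mem_bot] at this
      rw [this, map_zero, LinearMap.zero_apply]
    | succ n ih =>
      intro b c hb hbc x y hx hy
      rcases lt_or_ge b 0 with hneg | hpos
      · obtain ⟨a, ha⟩ := Int.eq_ofNat_of_zero_le (show 0 ≤ -b by omega)
        have hba : b = -(a : ℤ) := by omega
        rw [hba] at hx
        obtain ⟨x₁, hx₁, hx₂⟩ := hM.surj a x hx
        have h2 : B (x - (N ^ a) x₁) y = 0 :=
          ih (-(a : ℤ) - 1) c (by push_cast at hb ⊢; omega) (by omega) _ _ hx₂ hy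
        have h3 : B ((N ^ a) x₁) y = 0 := by
          rw [skew_pow hB]
          -- `N ^ a y` is in `P (- e)`, `e = c + 2 a`
          obtain ⟨e, he⟩ := Int.eq_ofNat_of_zero_le (show 0 ≤ c + 2 * (a : ℤ) by omega)
          have h4 : (N ^ a) y ∈ P (-(e : ℤ)) := by
            have := pow_mem hP.deg a hy
            rwa [show -c - 2 * (a : ℤ) = -(e : ℤ) by omega] at this
          obtain ⟨y₂, hy₂, hy₂'⟩ := hP.surj e _ h4
          have h5 : B ((N ^ e) x₁) y₂ = 0 := by
            refine ih ((a : ℤ) - 2 * e) (-(e : ℤ)) (by push_cast at hb ⊢; omega) (by omega) _ _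
              (pow_memM hM e hx₁) (by simpa using hy₂)
          rw [skew_pow hB] at h5
          rw [← hy₂']
          have h6 : ((-1 : Ω) ^ e) ≠ 0 := pow_ne_zero _ (neg_ne_zero.2 one_ne_zero)
          rcases mul_eq_zero.1 h5 with h7 | h7
          · exact absurd h7 h6
          · rw [h7, mul_zero]
        have h8 : B x y = B (x - (N ^ a) x₁) y + B ((N ^ a) x₁) y := by
          rw [map_sub, LinearMap.sub_apply, sub_add_cancel]
        rw [h8, h2, h3, add_zero]
      · obtain ⟨e, he⟩ := Int.eq_ofNat_of_zero_le (show 0 ≤ c by omega)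
        subst he
        obtain ⟨y₁, hy₁, rfl⟩ := hP.surj e y hy
        have h5 : B ((N ^ e) x) y₁ = 0 :=
          ih (b - 2 * e) (-(e : ℤ)) (by push_cast at hb ⊢; omega) (by omega) _ _
            (pow_memM hM e hx) (by simpa using hy₁)
        rw [skew_pow hB] at h5
        have h6 : ((-1 : Ω) ^ e) ≠ 0 := pow_ne_zero _ (neg_ne_zero.2 one_ne_zero)
        rcases mul_eq_zero.1 h5 with h7 | h7
        · exact absurd h7 h6
        · exact h7
  exact key (b - b₀).toNat b c (by have := Int.self_le_toNat (b - b₀); omega) hbc x y hx hy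

end Pool.Agent.K1H13.M
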