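import Pool.Agent.K1H13.M.Count
import Pool.Agent.H914R2.WeilBasic

/-!
# Reached classes and the weight-monodromy conjecture
-/

set_option autoImplicit false
set_option linter.unusedSectionVars false

open Module CategoryTheory AlgebraicGeometry

universe u v

namespace Pool.Agent.K1H13.M

open Pool.Agent.Y143 Pool.Agent.Y163.MW
open Pool.Agent.H914 Pool.Agent.H914.VarClass Pool.Agent.H914.VarClass.Obj
  Pool.Agent.H914.WeilCohomology

/-- Transport along an isomorphism. -/
lemma Dom.of_iso {Ω V : Type v} [Field Ω] [CharZero Ω] [AddCommGroup V] [Module Ω V]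
    {gr gr' : ℤ → Submodule Ω V} {G : Submodule Ω V} {N : Module.End Ω V} (L : Module.End Ω V)
    (hinj : ∀ x ∈ G, L x = 0 → x = 0) (hsurj : ∀ c, ∀ y ∈ gr' c, ∃ x ∈ gr c, L x = y)
    (hG : ∀ c, gr c ≤ G) (hN : ∀ x, L (N x) = N (L x)) (hNG : ∀ x ∈ G, N x ∈ G) {x : V}
    (hx : x ∈ G) (h : Dom gr' N (L x)) : Dom gr N x := by
  obtain ⟨U, _, _, ι, _, b, a, n, e, h, f, hs, hb, hf, u, hu⟩ := h
  obtain ⟨ψ, hψ⟩ := LinearMap.exists_leftInverse_of_injective (L.domRestrict G) (by
    rw [LinearMap.ker_eq_bot']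
    intro y hy
    exact Subtype.ext (hinj y y.2 hy))
  have hψ' : ∀ y ∈ G, ((ψ (L y) : G) : V) = y := by
    intro y hy
    have := LinearMap.congr_fun hψ ⟨y, hy⟩
    exact congrArg Subtype.val this
  have hr : ∀ v, ∃ y ∈ G, L y = f v := by
    intro v
    have h1 : f v ∈ G.map L := by
      rw [← b.sum_repr v, map_sum]
      refine Submodule.sum_mem _ fun i _ => ?_
      rw [map_smul]
      obtain ⟨y, hy, hy'⟩ := hsurj _ _ (hb i)
      exact Submodule.smul_mem _ _ ⟨y, hG _ hy, hy'⟩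
    exact h1
  refine ⟨U, inferInstance, inferInstance, ι, inferInstance, b, a, n, e, h,
    G.subtype ∘ₗ ψ ∘ₗ f, hs, fun i => ?_, fun v => ?_, u, ?_⟩
  · obtain ⟨y, hy, hy'⟩ := hsurj _ _ (hb i)
    change ((ψ (f (b i)) : G) : V) ∈ _
    rw [← hy', hψ' y (hG _ hy)]
    exact hy
  · obtain ⟨y, hy, hy'⟩ := hr v
    change ((ψ (f (n v)) : G) : V) = N ((ψ (f v) : G) : V)
    rw [hf, ← hy', ← hN, hψ' _ (hNG y hy), hψ' y hy]
  · change ((ψ (f u) : G) : V) = x
    rw [hu, hψ' x hx]

variable {k : Type u} [Field k] {𝒱 : VarClass k} {ops : CycleOps 𝒱}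
  {W : WeilCohomology.{u, v} ops} {q : ℕ} (D : LocalAction W q)

section basic

variable {X Y : 𝒱.Obj}

lemma F_gr {m : ℕ} {x : W.H X} (hx : x ∈ W.gr X m) : D.F X x ∈ W.gr X m :=
  ((D.isLocal X).stable m x hx).1

lemma N_gr {m : ℕ} {x : W.H X} (hx : x ∈ W.gr X m) : D.N X x ∈ W.gr X m :=
  ((D.isLocal X).stable m x hx).2

/-- The Poincare pairing. -/
noncomputable def pair (W : WeilCohomology.{u, v} ops) (X : 𝒱.Obj) :
    W.H X →ₗ[W.K] W.H X →ₗ[W.K] W.K := (LinearMap.mul W.K (W.H X)).compr₂ (W.tr X)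

lemma pair_apply (x y : W.H X) : pair W X x y = W.tr X (x * y) := rfl

lemma pairing : Pairing q X.dim (D.F X) (D.N X) (pair W X) where
  hF x y := by
    rw [pair_apply, pair_apply, ← (D.isLocal X).F_mul, (D.isLocal X).tr_F]
  hN x y := by
    have h := (D.isLocal X).tr_N (x * y)
    rw [(D.isLocal X).N_mul, map_add] at h
    rw [pair_apply, pair_apply]
    exact eq_neg_of_add_eq_zero_left h

lemma hasWt (m : ℕ) : HasWt q (W.gr X m) (D.F X) :=
  fun α x hx h0 hF => (D.isLocal X).weil m α x hx h0 hF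

lemma datum (m : ℕ) {S : Submodule W.K (W.H X)} (hS : Stable S (D.F X) (D.N X))
    (hle : S ≤ W.gr X m) : Datum q (D.F X) (D.N X) (W.gr X m) S :=
  ⟨(D.isLocal X).stable m, hS, hle, hasWt D m, (D.isLocal X).N_F⟩

lemma F_inj [IsAlgClosed W.K] (hq : 1 < q) {x : W.H X} (h : D.F X x = 0) : x = 0 := by
  have h1 : ∀ y, W.tr X (x * D.F X y) = 0 := by
    intro y
    have := (D.isLocal X).tr_F
    have h2 : (q : W.K) ^ X.dim * W.tr X (x * D.F X y) = 0 := by
      rw [← (D.isLocal X).tr_F, (D.isLocal X).F_mul, h, zero_mul, map_zero]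
    have hq0 : (q : W.K) ≠ 0 := Nat.cast_ne_zero.2 (by omega)
    exact (mul_eq_zero.1 h2).resolve_left (pow_ne_zero _ hq0)
  -- `F` is surjective: eigenvalue zero does not occur
  by_contra hx
  have hker : ∃ m, ∃ y ∈ W.gr X m, y ≠ 0 ∧ D.F X y = 0 := by
    classical
    have hint := W.isInternal X
    -- components
    letI := hint.chooseDecomposition
    have hsum := DirectSum.sum_support_decompose (W.gr X) x
    have hcomp : ∀ m, D.F X ((DirectSum.decompose (W.gr X) x m : W.gr X m) : W.H X) = 0 := by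
      intro m
      have hind := hint.submodule_iSupIndep
      rw [iSupIndep_iff_finsetSum_eq_zero_imp_eq_zero] at hind
      by_cases hm : m ∈ (DirectSum.decompose (W.gr X) x).support
      · refine hind (DirectSum.decompose (W.gr X) x).support
          (fun i => D.F X ((DirectSum.decompose (W.gr X) x i : W.gr X i) : W.H X))
          (fun i _ => F_gr D (Submodule.coe_mem _)) ?_ m hm
        rw [← map_sum, hsum, h]
      · rw [DFinsupp.notMem_support_iff] at hm
        rw [hm]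
        simp
    by_contra hcon
    push Not at hcon
    apply hx
    rw [← hsum]
    refine Finset.sum_eq_zero fun i _ => ?_
    by_contra hne
    exact hcon i _ (Submodule.coe_mem _) hne (hcomp i)
  obtain ⟨m, y, hy, hy0, hFy⟩ := hker
  obtain ⟨w, hw⟩ := (D.isLocal X).weil m 0 y hy hy0 (by rw [hFy, zero_smul])
  exact weil_ne_zero (by omega : 0 < q) hw rfl

lemma F_surj [IsAlgClosed W.K] (hq : 1 < q) (y : W.H X) : ∃ x, D.F X x = y := by
  have h : Function.Injective (D.F X) := by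
    rw [injective_iff_map_eq_zero]
    exact fun x hx => F_inj D hq hx
  exact LinearMap.injective_iff_surjective.1 h y

/-- Push-forwards. -/
lemma push_F [IsAlgClosed W.K] (hq : 1 < q) (f : X ⟶ Y) (x : W.H X) :
    (q : W.K) ^ X.dim • D.F Y (W.push f x) = (q : W.K) ^ Y.dim • W.push f (D.F X x) := by
  rw [← sub_eq_zero]
  apply W.nondeg
  intro b
  obtain ⟨c, rfl⟩ := F_surj D hq b
  rw [sub_mul, map_sub, smul_mul_assoc, smul_mul_assoc, map_smul, map_smul,
    ← (D.isLocal Y).F_mul, (D.isLocal Y).tr_F, W.tr_push, W.tr_push, ← D.pull_F,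
    ← (D.isLocal X).F_mul, (D.isLocal X).tr_F]
  simp only [smul_eq_mul]
  ring

lemma push_N (f : X ⟶ Y) (x : W.H X) : D.N Y (W.push f x) = W.push f (D.N X x) := by
  rw [← sub_eq_zero]
  apply W.nondeg
  intro b
  have h1 := (pairing D (X := Y)).hN (W.push f x) b
  have h2 := (pairing D (X := X)).hN x (W.map f b)
  rw [pair_apply, pair_apply] at h1 h2
  rw [sub_mul, map_sub, h1, W.tr_push, W.tr_push, h2, D.pull_N, sub_self]

lemma act_F [IsAlgClosed W.K] (hq : 1 < q) {p : ℕ} {z : (Y.prod X).Cycles}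
    (hz : (Y.prod X).IsCyc p z) (y : W.H Y) :
    D.F X (act W z y) = ((q : W.K) ^ ((p : ℤ) - Y.dim)) • act W z (D.F Y y) := by
  have hq0 : (q : W.K) ≠ 0 := Nat.cast_ne_zero.2 (by omega)
  have h := push_F D hq (snd Y X) (W.cl _ z * W.map (fst Y X) y)
  rw [(D.isLocal _).F_mul, D.cl_F hz, D.pull_F, smul_mul_assoc, map_smul, smul_smul,
    dim_prod] at h
  unfold act
  rw [corr_apply, corr_apply]
  have h1 : D.F X (W.push (snd Y X) (W.cl _ z * W.map (fst Y X) y)) =
      ((q : W.K) ^ (Y.dim + X.dim))⁻¹ • ((q : W.K) ^ X.dim * (q : W.K) ^ p) •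
        W.push (snd Y X) (W.cl _ z * W.map (fst Y X) (D.F Y y)) := by
    rw [← h, smul_smul, inv_mul_cancel₀ (pow_ne_zero _ hq0), one_smul]
  rw [h1, smul_smul]
  congr 1
  rw [zpow_sub₀ hq0, zpow_natCast, zpow_natCast, pow_add]
  field_simp

lemma act_N {p : ℕ} {z : (Y.prod X).Cycles} (hz : (Y.prod X).IsCyc p z) (y : W.H Y) :
    D.N X (act W z y) = act W z (D.N Y y) := by
  unfold act
  rw [corr_apply, corr_apply, push_N, (D.isLocal _).N_mul, D.cl_N hz, zero_mul, zero_add,
    D.pull_N]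

end basic

section reached

variable [IsAlgClosed W.K] {X Y : 𝒱.Obj}

/-- Classes in pure stable parts are dominated. -/
lemma dom_of_part (hq : 1 < q) {m : ℕ} {S : Submodule W.K (W.H X)} (hS : S ≤ W.gr X m)
    (sS : Stable S (D.F X) (D.N X)) (h : IsPure q m S (D.F X) (D.N X)) {x : W.H X}
    (hx : x ∈ S) : Dom (exc q m (W.gr X m) (D.F X)) (D.N X) x := by
  have hF : ∀ x ∈ S, D.F X x ∈ S := fun x hx => (sS x hx).1
  have hN : ∀ x ∈ S, D.N X x ∈ S := fun x hx => (sS x hx).2
  have hw : HasWt q S (D.F X) := (hasWt D (X := X) m).mono hS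
  rw [isPure_iff hq sS (D.isLocal X).N_F hw] at h
  have h1 : Dom (exc q m S (D.F X)) (D.N X) x := by
    refine dom_of_centred hN (internal_comap (indep_exc hq hF hw m) (iSup_exc hF hw m))
      (N_exc hq hN (D.isLocal X).N_F m) ?_ hx
    exact (centred_comap hN (fun c => wtPart_le _)).2 h
  exact h1.map LinearMap.id (fun c x hx => exc_mono hS m c hx) (fun x => rfl)

/-- Classes in pure cohomology groups are dominated. -/
lemma dom_of_pure (hq : 1 < q) {m : ℕ} (h : IsPure q m (W.gr X m) (D.F X) (D.N X)) {x : W.H X}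
    (hx : x ∈ W.gr X m) : Dom (exc q m (W.gr X m) (D.F X)) (D.N X) x :=
  dom_of_part D hq le_rfl ((D.isLocal X).stable m) h hx

/-- Poincare duality between `H^m` and `H^m'`. -/
lemma perf_gr {m m' : ℕ} (hm : m + m' = 2 * X.dim) :
    Perf (pair W X) (W.gr X m) (W.gr X m') := by
  have key : ∀ (i j : ℕ), i + j = 2 * X.dim → ∀ x ∈ W.gr X i,
      (∀ y ∈ W.gr X j, W.tr X (x * y) = 0) → x = 0 := by
    intro i j hij x hx h
    apply W.nondeg
    intro b
    refine gr_induction (W.isInternal X) (p := fun b => W.tr X (x * b) = 0) ?_ ?_ b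
    · intro l c hc
      by_cases hl : l = j
      · subst hl
        exact h c hc
      · exact W.tr_eq_zero (W.mul_mem hx hc) (by omega)
    · intro a b ha hb
      rw [mul_add, map_add, ha, hb, add_zero]
  refine ⟨fun x hx h => key m m' hm x hx h, fun y hy h => key m' m (by omega) y hy fun x hx => ?_⟩
  rw [W.comm hy hx, map_smul]
  have := h x hx
  rw [pair_apply] at this
  rw [this, smul_zero]

/-- The Lefschetz operator is an isomorphism `H^m → H^m'`. -/
lemma lef_bij {z : X.Cycles} (hl : HardLefschetz X.dim (W.gr X) (W.cl X z))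
    (hz : X.IsCyc 1 z) {m k : ℕ} (hm : m + k = X.dim) :
    (∀ x ∈ W.gr X m, W.cl X z ^ k * x ∈ W.gr X (m + 2 * k)) ∧
    ∀ y ∈ W.gr X (m + 2 * k), ∃ x ∈ W.gr X m, W.cl X z ^ k * x = y := by
  have h0 : ∀ j : ℕ, W.cl X z ^ j ∈ W.gr X (2 * j) := by
    intro j
    induction j with
    | zero => simpa using W.one_mem X
    | succ j ih =>
      rw [pow_succ]
      have := W.mul_mem ih (W.cl_mem hz)
      rwa [show 2 * j + 2 * 1 = 2 * (j + 1) by ring] at this
  have h1 : ∀ x ∈ W.gr X m, W.cl X z ^ k * x ∈ W.gr X (m + 2 * k) := by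
    intro x hx
    have := W.mul_mem (h0 k) hx
    rwa [add_comm] at this
  refine ⟨h1, ?_⟩
  let φ : W.gr X m →ₗ[W.K] W.gr X (m + 2 * k) :=
    LinearMap.restrict (LinearMap.mulLeft W.K (W.cl X z ^ k)) h1
  have hφ : Function.Injective φ := by
    rw [injective_iff_map_eq_zero]
    intro x hx
    apply Subtype.ext
    exact hl m k hm x x.2 (congrArg Subtype.val hx)
  -- dimensions are equal by Poincare duality
  have hdim : finrank W.K (W.gr X (m + 2 * k)) = finrank W.K (W.gr X m) := by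
    have hp := perf_gr (W := W) (X := X) (m := m) (m' := m + 2 * k) (by omega)
    apply le_antisymm
    · have := finrank_orth (B := (pair W X).flip) (A₁ := W.gr X (m + 2 * k))
        (W₁ := W.gr X (m + 2 * k)) (A₂ := ⊥) (W₂ := W.gr X m) le_rfl bot_le hp.flip.left
        (fun x _ y hy => by rw [Submodule.mem_bot] at hy; rw [hy, map_zero])
      simpa using this
    · exact LinearMap.finrank_le_finrank_of_injective hφ
  have hs : Function.Surjective φ :=
    (LinearMap.injective_iff_surjective_of_finrank_eq_finrank hdim.symm).1 hφ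
  intro y hy
  obtain ⟨x, hx⟩ := hs ⟨y, hy⟩
  exact ⟨x, x.2, congrArg Subtype.val hx⟩

lemma N_pow {z : X.Cycles} (hz : X.IsCyc 1 z) (j : ℕ) : D.N X (W.cl X z ^ j) = 0 := by
  induction j with
  | zero =>
    have h := (D.isLocal X).N_mul 1 1
    rw [mul_one, mul_one, one_mul] at h
    rw [pow_zero]
    exact left_eq_add.1 h
  | succ j ih =>
    rw [pow_succ, (D.isLocal X).N_mul, ih, D.cl_N hz, zero_mul, mul_zero, add_zero]

lemma N_lef {z : X.Cycles} (hz : X.IsCyc 1 z) (j : ℕ) (x : W.H X) :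
    D.N X (W.cl X z ^ j * x) = W.cl X z ^ j * D.N X x := by
  rw [(D.isLocal X).N_mul, N_pow D hz, zero_mul, zero_add]

lemma F_lef (hq : 1 < q) {z : X.Cycles} (hz : X.IsCyc 1 z) (j : ℕ) (x : W.H X) :
    D.F X (W.cl X z ^ j * x) = (q : W.K) ^ j • (W.cl X z ^ j * D.F X x) := by
  induction j with
  | zero => simp
  | succ j ih =>
    rw [pow_succ', mul_assoc, (D.isLocal X).F_mul, ih, D.cl_F hz, pow_one, smul_mul_smul_comm,
      ← mul_assoc, ← pow_succ', ← pow_succ']

/-- Classes of degree `m` whose image by the Lefschetz operator is dominated are dominated. -/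
lemma dom_lef (hq : 1 < q) {z : X.Cycles} (hl : HardLefschetz X.dim (W.gr X) (W.cl X z))
    (hz : X.IsCyc 1 z) {m k : ℕ} (hm : m + k = X.dim) {x : W.H X} (hx : x ∈ W.gr X m)
    (hr : Dom (exc q (m + 2 * k : ℕ) (W.gr X (m + 2 * k)) (D.F X)) (D.N X) (W.cl X z ^ k * x)) :
    Dom (exc q m (W.gr X m) (D.F X)) (D.N X) x := by
  have hF : ∀ x ∈ W.gr X m, D.F X x ∈ W.gr X m := fun x hx => F_gr D hx
  have hF' : ∀ x ∈ W.gr X (m + 2 * k), D.F X x ∈ W.gr X (m + 2 * k) := fun x hx => F_gr D hx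
  have hb := lef_bij (W := W) hl hz hm
  refine Dom.of_iso (gr' := exc q (m + 2 * k : ℕ) (W.gr X (m + 2 * k)) (D.F X))
    (G := W.gr X m) (LinearMap.mulLeft W.K (W.cl X z ^ k))
    (fun x hx h0 => hl m k hm x hx h0) ?_ (fun c => wtPart_le _) (fun x => (N_lef D hz k x).symm)
    (fun x hx => N_gr D hx) hx hr
  intro c y hy
  obtain ⟨x, hx, hxy⟩ := hb.2 y (wtPart_le _ hy)
  obtain ⟨Z, v, hv, hv0, hvx⟩ := exists_dec hq hF (hasWt D m) m hx
  have h1 : ∀ c, W.cl X z ^ k * v c ∈
      exc q (m + 2 * k : ℕ) (W.gr X (m + 2 * k)) (D.F X) c := by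
    intro c
    have h2 := map_wt (F := D.F X) (F' := D.F X) (S := W.gr X m) (S' := W.gr X (m + 2 * k)) hq
      (LinearMap.mulLeft W.K (W.cl X z ^ k)) k (fun a ha => hb.1 a ha)
      (fun a => by rw [zpow_natCast]; exact F_lef D hq hz k a) _ (v c) (hv c)
    unfold exc
    rwa [show ((m + 2 * k : ℕ) : ℤ) + c = m + c + 2 * k by push_cast; ring]
  have hind := indep_exc hq hF' (hasWt D (m + 2 * k)) (m + 2 * k : ℕ)
  classical
  rw [iSupIndep_iff_finsetSum_eq_zero_imp_eq_zero] at hind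
  have h3 : ∀ c' ∈ insert c Z, W.cl X z ^ k * v c' - (if c' = c then y else 0) = 0 := by
    refine hind _ _ (fun c' _ => ?_) ?_
    · refine Submodule.sub_mem _ (h1 c') ?_
      split_ifs with h
      · rw [h]; exact hy
      · exact Submodule.zero_mem _
    · rw [Finset.sum_sub_distrib, Finset.sum_ite_eq' (insert c Z) c (fun _ => y),
        if_pos (Finset.mem_insert_self _ _), ← Finset.mul_sum]
      have h4 : ∑ c' ∈ insert c Z, v c' = x := by
        rw [← hvx]
        symm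
        exact Finset.sum_subset (Finset.subset_insert _ _) fun i _ hi => hv0 i hi
      rw [h4, hxy, sub_self]
  refine ⟨v c, hv c, ?_⟩
  have h5 := h3 c (Finset.mem_insert_self _ _)
  rw [if_pos rfl, sub_eq_zero] at h5
  exact h5

lemma act_mem {p m m' : ℕ} {z : (Y.prod X).Cycles} (hz : (Y.prod X).IsCyc p z)
    (hm : m' + 2 * Y.dim = m + 2 * p) {y : W.H Y} (hy : y ∈ W.gr Y m) :
    act W z y ∈ W.gr X m' := by
  have h1 : W.cl _ z * W.map (fst Y X) y ∈ W.gr (Y.prod X) (2 * p + m) :=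
    W.mul_mem (W.cl_mem hz) (W.map_mem _ hy)
  have h2 := W.push_mem (snd Y X) h1
  rw [dim_prod, show ((2 * p + m : ℕ) : ℤ) + 2 * ((X.dim : ℤ) - ((Y.dim + X.dim : ℕ) : ℤ)) =
    (m' : ℤ) by push_cast; omega, grZ_natCast] at h2
  exact h2

theorem reached_dom (hq : 1 < q) {m : ℕ} {x : W.H X} (h : Reached D X m x) :
    x ∈ W.gr X m ∧ Dom (exc q m (W.gr X m) (D.F X)) (D.N X) x := by
  induction h with
  | low hm hx => exact ⟨hx, dom_of_pure D hq ((D.isLocal _).low _ hm) hx⟩
  | part hS hx => exact ⟨hS.1.1 hx, dom_of_part D hq hS.1.1 hS.1.2 hS.2 hx⟩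
  | @mul X m m' x y _ _ hx hy =>
    refine ⟨W.mul_mem hx.1 hy.1, ?_⟩
    refine Dom.mul (LinearMap.mul W.K (W.H X)) (fun c c' a b ha hb => ?_) (fun a b => ?_) hx.2 hy.2
    · have := mul_wt hq (LinearMap.mul W.K (W.H X)) (S'' := W.gr X (m + m'))
        (fun a ha b hb => W.mul_mem ha hb) (fun a b => (D.isLocal X).F_mul a b) _ _ ha hb
      unfold exc
      rwa [show ((m + m' : ℕ) : ℤ) + (c + c') = (m : ℤ) + c + (m' + c') by push_cast; ring]
    · exact (D.isLocal X).N_mul a b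
  | @act Y X m m' p z y hz hm _ hy =>
    refine ⟨act_mem hz hm hy.1, ?_⟩
    have := hy.2.map (gr' := exc q m' (W.gr X m') (D.F X)) (N' := D.N X) (W.corr (W.cl _ z))
      (fun c a ha => ?_) (fun a => (act_N D hz a).symm)
    · exact this
    · have h1 := map_wt (F := D.F Y) (F' := D.F X) (S := W.gr Y m) (S' := W.gr X m') hq
        (W.corr (W.cl _ z)) ((p : ℤ) - Y.dim) (fun a ha => act_mem hz hm ha)
        (fun a => act_F D hq hz a) _ a ha
      unfold exc
      rwa [show (m : ℤ) + c + 2 * ((p : ℤ) - Y.dim) = m' + c by omega] at h1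
  | lef hz hm hx _ h => exact ⟨hx, dom_lef D hq hz.2 hz.1 hm hx h.2⟩
  | add _ _ hx hy => exact ⟨Submodule.add_mem _ hx.1 hy.1, hx.2.add hy.2⟩
  | smul a _ hx => exact ⟨Submodule.smul_mem _ a hx.1, hx.2.smul a⟩

end reached

end Pool.Agent.K1H13.M
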