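import Pool.Agent.K1H13.M.Main

/-!
# The main theorem
-/

set_option autoImplicit false
set_option linter.unusedSectionVars false

open Module CategoryTheory AlgebraicGeometry

universe u v

namespace Pool.Agent.K1H13.M

open Pool.Agent.Y143 Pool.Agent.Y163.MW
open Pool.Agent.H914 Pool.Agent.H914.VarClass Pool.Agent.H914.VarClass.Obj
  Pool.Agent.H914.WeilCohomology

variable {k : Type u} [Field k] {𝒱 : VarClass k} {ops : CycleOps 𝒱}
  {W : WeilCohomology.{u, v} ops} {q : ℕ} {D : LocalAction W q} {X : 𝒱.Obj}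

lemma perf_of {S T : Submodule W.K (W.H X)} (h : IsPerfect (W.tr X) S T) :
    Perf (pair W X) S T := ⟨h.left, h.right⟩

lemma stable_gr (m : ℕ) : Stable (W.gr X m) (D.F X) (D.N X) := (D.isLocal X).stable m

section

variable [IsAlgClosed W.K]

/-- The bound for the number of wrong eigenvalues on a stable part. -/
theorem wrong_part (hq : 1 < q) {m m' : ℕ} (hm : m + m' = 2 * X.dim)
    {S T : Submodule W.K (W.H X)} (hS : S ≤ W.gr X m) (hT : T ≤ W.gr X m')
    (sS : Stable S (D.F X) (D.N X)) (sT : Stable T (D.F X) (D.N X))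
    (hP : IsPerfect (W.tr X) S T) {M : ℤ → Submodule W.K (W.H X)}
    (hM : IsMonodromyFiltrationOn S (D.N X) M) :
    wrong q m S (D.F X) M ≤ defect D X m S + defect D X m' T :=
  wrong_le hq (datum D m sS hS) (datum D m' sT hT) (pairing D) (by exact_mod_cast hm) (perf_of hP)
    hM (fun x hx => ⟨hx.1, (reached_dom D hq hx.2).2⟩) (fun x hx => ⟨hx.1, (reached_dom D hq hx.2).2⟩)

/-- Stable parts which consist of reached classes are pure. -/
theorem pure_part (hq : 1 < q) {m m' : ℕ} (hm : m + m' = 2 * X.dim)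
    {S T : Submodule W.K (W.H X)} (hS : S ≤ W.gr X m) (hT : T ≤ W.gr X m')
    (sS : Stable S (D.F X) (D.N X)) (sT : Stable T (D.F X) (D.N X))
    (hP : IsPerfect (W.tr X) S T) (rS : ∀ x ∈ S, Reached D X m x)
    (rT : ∀ x ∈ T, Reached D X m' x) : IsPure q m S (D.F X) (D.N X) :=
  pure_of hq (datum D m sS hS) (datum D m' sT hT) (pairing D) (by exact_mod_cast hm) (perf_of hP)
    (fun x hx => (reached_dom D hq (rS x hx)).2) (fun x hx => (reached_dom D hq (rT x hx)).2)

lemma reached_zero (m : ℕ) : Reached D X m 0 := by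
  induction m with
  | zero => exact .low (by omega) (Submodule.zero_mem _)
  | succ m ih =>
    have := Reached.mul ih (Reached.low (D := D) (X := X) (m := 1) (by omega)
      (Submodule.zero_mem _))
    rwa [mul_zero] at this

lemma reached_pow {z : X.Cycles} (hz : X.IsCyc 1 z) (j : ℕ) :
    Reached D X (2 * j) (W.cl X z ^ j) := by
  induction j with
  | zero => simpa using Reached.low (D := D) (by omega) (W.one_mem X)
  | succ j ih =>
    rw [pow_succ]
    have := Reached.mul ih (Reached.low (D := D) (m := 2 * 1) (by omega) (W.cl_mem hz))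
    rwa [show 2 * j + 2 * 1 = 2 * (j + 1) by ring] at this

/-- Reached classes correspond to each other under the Lefschetz isomorphisms. -/
lemma reached_lef_iff {z : X.Cycles} (hl : HardLefschetz X.dim (W.gr X) (W.cl X z))
    (hz : X.IsCyc 1 z) {m k : ℕ} (hm : m + k = X.dim) {x : W.H X} (hx : x ∈ W.gr X m) :
    Reached D X (m + 2 * k) (W.cl X z ^ k * x) ↔ Reached D X m x := by
  refine ⟨fun h => .lef ⟨hz, hl⟩ hm hx h, fun h => ?_⟩
  have := Reached.mul (reached_pow hz k) h
  rwa [add_comm] at this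

lemma finrank_gr {m m' : ℕ} (hm : m + m' = 2 * X.dim) :
    finrank W.K (W.gr X m) ≤ finrank W.K (W.gr X m') := by
  have hp := perf_gr (W := W) (X := X) hm
  have := finrank_orth (B := pair W X) (A₁ := W.gr X m)
    (W₁ := W.gr X m) (A₂ := ⊥) (W₂ := W.gr X m') le_rfl bot_le hp.left
    (fun x _ y hy => by rw [Submodule.mem_bot] at hy; rw [hy, map_zero])
  simpa using this

/-- The defects in the degrees `m` and `2 dim X - m` are equal. -/
lemma defect_eq {m k : ℕ} (hm : m + k = X.dim) :
    defect D X m (W.gr X m) = defect D X (m + 2 * k) (W.gr X (m + 2 * k)) := by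
  obtain ⟨z, hz, hl⟩ := D.lefschetz X
  have hb := lef_bij (W := W) hl hz hm
  have h1 : Submodule.span W.K (reachedIn D X (m + 2 * k) (W.gr X (m + 2 * k))) =
      (Submodule.span W.K (reachedIn D X m (W.gr X m))).map
        (LinearMap.mulLeft W.K (W.cl X z ^ k)) := by
    apply le_antisymm
    · rw [Submodule.span_le]
      rintro y ⟨hy, hr⟩
      obtain ⟨x, hx, hxy⟩ := hb.2 y hy
      refine ⟨x, Submodule.subset_span ⟨hx, ?_⟩, hxy⟩
      rw [← reached_lef_iff hl hz hm hx, hxy]
      exact hr
    · rw [Submodule.map_span, Submodule.span_le]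
      rintro _ ⟨x, ⟨hx, hr⟩, rfl⟩
      exact Submodule.subset_span ⟨hb.1 x hx, (reached_lef_iff hl hz hm hx).2 hr⟩
  have h2 : Set.finrank W.K (reachedIn D X (m + 2 * k) (W.gr X (m + 2 * k))) =
      Set.finrank W.K (reachedIn D X m (W.gr X m)) := by
    unfold Set.finrank
    rw [h1]
    have hle : Submodule.span W.K (reachedIn D X m (W.gr X m)) ≤ W.gr X m :=
      Submodule.span_le.2 fun x hx => hx.1
    let φ := (LinearMap.mulLeft W.K (W.cl X z ^ k)).domRestrict
      (Submodule.span W.K (reachedIn D X m (W.gr X m)))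
    have hφ : Function.Injective φ := by
      rw [injective_iff_map_eq_zero]
      intro x hx
      exact Subtype.ext (hl m k hm x (hle x.2) hx)
    have h3 := LinearMap.finrank_range_of_inj hφ
    rw [← h3, LinearMap.range_domRestrict]
  have h3 : finrank W.K (W.gr X m) = finrank W.K (W.gr X (m + 2 * k)) :=
    le_antisymm (finrank_gr (by omega)) (finrank_gr (by omega))
  unfold defect
  rw [h2, h3]

/-- The defects in dual degrees are equal. -/
lemma defect_eq' {m m' : ℕ} (hm : m + m' = 2 * X.dim) :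
    defect D X m (W.gr X m) = defect D X m' (W.gr X m') := by
  rcases le_total m m' with h | h
  · obtain ⟨k, rfl⟩ : ∃ k, m' = m + 2 * k := ⟨X.dim - m, by omega⟩
    exact defect_eq (by omega)
  · obtain ⟨k, rfl⟩ : ∃ k, m = m' + 2 * k := ⟨X.dim - m', by omega⟩
    exact (defect_eq (by omega)).symm

/-- Reached classes in dual degrees. -/
lemma reached_dual {m m' : ℕ} (hm : m + m' = 2 * X.dim) (h : ∀ x ∈ W.gr X m, Reached D X m x) :
    ∀ x ∈ W.gr X m', Reached D X m' x := by
  obtain ⟨z, hz, hl⟩ := D.lefschetz X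
  rcases le_total m m' with hle | hle
  · obtain ⟨k, rfl⟩ : ∃ k, m' = m + 2 * k := ⟨X.dim - m, by omega⟩
    intro y hy
    obtain ⟨x, hx, rfl⟩ := (lef_bij (W := W) hl hz (by omega)).2 y hy
    exact (reached_lef_iff hl hz (by omega) hx).2 (h x hx)
  · obtain ⟨k, rfl⟩ : ∃ k, m = m' + 2 * k := ⟨X.dim - m', by omega⟩
    intro x hx
    exact (reached_lef_iff hl hz (by omega) hx).1
      (h _ ((lef_bij (W := W) hl hz (by omega)).1 x hx))

/-- The bound for the cohomology groups. -/
theorem wrong_gr (hq : 1 < q) {m : ℕ} (hm : m ≤ 2 * X.dim) {M : ℤ → Submodule W.K (W.H X)}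
    (hM : IsMonodromyFiltrationOn (W.gr X m) (D.N X) M) :
    wrong q m (W.gr X m) (D.F X) M ≤ 2 * defect D X m (W.gr X m) := by
  obtain ⟨m', hm'⟩ := Nat.exists_eq_add_of_le hm
  have hmm : m + m' = 2 * X.dim := hm'.symm
  have h := wrong_part (D := D) hq hmm le_rfl le_rfl (stable_gr m) (stable_gr m')
    ⟨(perf_gr (W := W) hmm).left, (perf_gr (W := W) hmm).right⟩ hM
  rw [← defect_eq' hmm] at h
  linarith

/-- The criterion. -/
theorem mw_iff (hq : 1 < q) {m : ℕ} (hm : m ≤ 2 * X.dim) :
    MW D X m ↔ ∀ x ∈ W.gr X m, Reached D X m x := by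
  obtain ⟨m', hm'⟩ := Nat.exists_eq_add_of_le hm
  have hmm : m + m' = 2 * X.dim := hm'.symm
  refine ⟨fun h x hx => .part ⟨⟨le_rfl, stable_gr m⟩, h⟩ hx, fun h => ?_⟩
  exact pure_part hq hmm le_rfl le_rfl (stable_gr m) (stable_gr m')
    ⟨(perf_gr (W := W) hmm).left, (perf_gr (W := W) hmm).right⟩ h (reached_dual hmm h)

/-- The reached classes as a subspace. -/
def reachedSub (D : LocalAction W q) (X : 𝒱.Obj) (m : ℕ) : Submodule W.K (W.H X) where
  carrier := {x | Reached D X m x}
  zero_mem' := reached_zero m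
  add_mem' := fun hx hy => .add hx hy
  smul_mem' := fun a _ hx => .smul a hx

lemma low_le (hq : 1 < q) {m : ℕ} {x : W.H X} (hx : x ∈ lowPart (W.gr X) m) :
    Reached D X m x := by
  classical
  have h1 : ∀ y ∈ lowAlg (W.gr X), y ∈ ⨆ j, reachedSub D X j := by
    intro y hy
    unfold lowAlg at hy
    induction hy using Algebra.adjoin_induction with
    | mem y hy =>
      obtain ⟨j, hj, hy⟩ := hy
      exact Submodule.mem_iSup_of_mem j (.low hj hy)
    | algebraMap r =>
      refine Submodule.mem_iSup_of_mem 0 (.low (by omega) ?_)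
      rw [Algebra.algebraMap_eq_smul_one]
      exact Submodule.smul_mem _ r (W.one_mem X)
    | add y z _ _ hy hz => exact Submodule.add_mem _ hy hz
    | mul y z _ _ hy hz =>
      have h2 : (⨆ j, reachedSub D X j) ≤
          (⨆ j, reachedSub D X j).comap (LinearMap.mulRight W.K z) := by
        refine iSup_le fun i a ha => ?_
        have h3 : (⨆ j, reachedSub D X j) ≤
            (⨆ j, reachedSub D X j).comap (LinearMap.mulLeft W.K a) := by
          refine iSup_le fun j b hb => ?_
          exact Submodule.mem_iSup_of_mem (i + j) (.mul ha hb)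
        exact h3 hz
      exact h2 hy
  obtain ⟨hxm, hxl⟩ := hx
  obtain ⟨f, hf, hfx⟩ := (Submodule.mem_iSup_iff_exists_finsupp _ _).1 (h1 x hxl)
  have hind := (W.isInternal X).submodule_iSupIndep
  rw [iSupIndep_iff_finsetSum_eq_zero_imp_eq_zero] at hind
  have h4 : ∑ i ∈ insert m f.support, (f i - if i = m then x else 0) = 0 := by
    rw [Finset.sum_sub_distrib, Finset.sum_ite_eq' (insert m f.support) m (fun _ => x),
      if_pos (Finset.mem_insert_self _ _), sub_eq_zero, ← hfx, Finsupp.sum]
    symm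
    refine Finset.sum_subset (Finset.subset_insert _ _) fun i _ hi => ?_
    exact Finsupp.notMem_support_iff.1 hi
  have h5 := hind _ _ (fun i _ => ?_) h4 m (Finset.mem_insert_self _ _)
  · rw [if_pos rfl, sub_eq_zero] at h5
    rw [← h5]
    exact hf m
  · refine Submodule.sub_mem _ (reached_dom D hq (hf i)).1 ?_
    split_ifs with h
    · rw [h]; exact hxm
    · exact Submodule.zero_mem _

lemma stable_low (m : ℕ) : Stable (lowPart (W.gr X) m) (D.F X) (D.N X) := by
  have hlow : ∀ {j : ℕ} {x : W.H X}, j ≤ 2 → x ∈ W.gr X j → x ∈ lowAlg (W.gr X) :=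
    fun hj hx => Algebra.subset_adjoin ⟨_, hj, hx⟩
  have h1 : ∀ y ∈ lowAlg (W.gr X), D.F X y ∈ lowAlg (W.gr X) := by
    intro y hy
    unfold lowAlg at hy
    induction hy using Algebra.adjoin_induction with
    | mem y hy =>
      obtain ⟨j, hj, hy⟩ := hy
      exact hlow hj (F_gr D hy)
    | algebraMap r =>
      refine hlow (j := 0) (by omega) (F_gr D ?_)
      rw [Algebra.algebraMap_eq_smul_one]
      exact Submodule.smul_mem _ r (W.one_mem X)
    | add y z _ _ hy hz => rw [map_add]; exact Subalgebra.add_mem _ hy hz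
    | mul y z _ _ hy hz => rw [(D.isLocal X).F_mul]; exact Subalgebra.mul_mem _ hy hz
  have h2 : ∀ y ∈ lowAlg (W.gr X), D.N X y ∈ lowAlg (W.gr X) := by
    intro y hy
    unfold lowAlg at hy
    induction hy using Algebra.adjoin_induction with
    | mem y hy =>
      obtain ⟨j, hj, hy⟩ := hy
      exact hlow hj (N_gr D hy)
    | algebraMap r =>
      refine hlow (j := 0) (by omega) (N_gr D ?_)
      rw [Algebra.algebraMap_eq_smul_one]
      exact Submodule.smul_mem _ r (W.one_mem X)
    | add y z _ _ hy hz => rw [map_add]; exact Subalgebra.add_mem _ hy hz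
    | mul y z hy' hz' hy hz =>
      rw [(D.isLocal X).N_mul]
      exact Subalgebra.add_mem _ (Subalgebra.mul_mem _ hy hz') (Subalgebra.mul_mem _ hy' hz)
  intro x hx
  obtain ⟨hx1, hx2⟩ := hx
  exact ⟨⟨F_gr D hx1, h1 x hx2⟩, ⟨N_gr D hx1, h2 x hx2⟩⟩

/-- The part generated in low degrees is pure. -/
theorem pure_low (hq : 1 < q) {m m' : ℕ} (hm : m + m' = 2 * X.dim)
    (hP : IsPerfect (W.tr X) (lowPart (W.gr X) m) (lowPart (W.gr X) m')) :
    IsPure q m (lowPart (W.gr X) m) (D.F X) (D.N X) :=
  pure_part hq hm inf_le_left inf_le_left (stable_low m) (stable_low m') hP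
    (fun _ hx => low_le hq hx) (fun _ hx => low_le hq hx)

end

end Pool.Agent.K1H13.M
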