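import Pool.Agent.K1H13.M.Dom
import Pool.Agent.Y163.MW.Wt
import Pool.Agent.Y163.MW.Deg

/-!
# The weight decomposition of a stable subspace
-/

set_option autoImplicit false
set_option linter.unusedSectionVars false

open Module TensorProduct

universe v

namespace Pool.Agent.K1H13.M

open Pool.Agent.Y143 Pool.Agent.Y163.MW Pool.Agent.Y136.UB

section

variable {Ω : Type v} [Field Ω] [CharZero Ω] {V V' V'' : Type v} [AddCommGroup V] [Module Ω V]
  [AddCommGroup V'] [Module Ω V'] [AddCommGroup V''] [Module Ω V''] {q : ℕ}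
  {S : Submodule Ω V} {F N : Module.End Ω V}

/-- The eigenvalues of `F` on `S` are Weil numbers of integral weights. -/
def HasWt (q : ℕ) (S : Submodule Ω V) (F : Module.End Ω V) : Prop :=
  ∀ (α : Ω) (x : V), x ∈ S → x ≠ 0 → F x = α • x → ∃ w : ℤ, IsWeilNumber q w α

lemma HasWt.mono {S' : Submodule Ω V} (h : HasWt q S F) (hS : S' ≤ S) : HasWt q S' F :=
  fun α x hx h0 hF => h α x (hS hx) h0 hF

lemma wtPart_le (w : ℤ) : wtPart q S F w ≤ S := iSup₂_le fun _ _ => inf_le_left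

lemma wtPart_mono {S' : Submodule Ω V} (hS : S' ≤ S) (w : ℤ) :
    wtPart q S' F w ≤ wtPart q S F w :=
  iSup₂_mono fun _ _ => inf_le_inf_right _ hS

lemma wt_exists (hS : ∀ x ∈ S, F x ∈ S) (hw : HasWt q S F) {α : Ω} {x : V} (hx : x ∈ S)
    (hx' : x ∈ F.maxGenEigenspace α) (h0 : x ≠ 0) : ∃ w : ℤ, IsWeilNumber q w α := by
  obtain ⟨y, hy, hy0, hFy⟩ := exists_eigen_of_gen hS hx hx' h0
  exact hw α y hy hy0 hFy

lemma inf_eq_bot (hS : ∀ x ∈ S, F x ∈ S) (hw : HasWt q S F) {α : Ω}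
    (h : ¬ ∃ w : ℤ, IsWeilNumber q w α) : S ⊓ F.maxGenEigenspace α = ⊥ := by
  rw [Submodule.eq_bot_iff]
  intro x hx
  by_contra h0
  exact h (wt_exists hS hw (Submodule.mem_inf.1 hx).1 (Submodule.mem_inf.1 hx).2 h0)

lemma wtPart_eq (hq : 1 < q) (hS : ∀ x ∈ S, F x ∈ S) (hw : HasWt q S F) (w : ℤ) :
    wtPart q S F w = ⨆ (α : Ω) (_ : Coh.wtf q α = w), S ⊓ F.maxGenEigenspace α := by
  apply le_antisymm
  · refine iSup₂_le fun α hα => ?_
    exact le_iSup₂_of_le α (Coh.wtf_eq hq hα) le_rfl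
  · refine iSup₂_le fun α hα => ?_
    by_cases h : ∃ w : ℤ, IsWeilNumber q w α
    · obtain ⟨w', hw'⟩ := h
      rw [Coh.wtf_eq hq hw'] at hα
      subst hα
      exact le_iSup₂_of_le α hw' le_rfl
    · rw [inf_eq_bot hS hw h]
      exact bot_le

lemma indep_wt (hq : 1 < q) (hS : ∀ x ∈ S, F x ∈ S) (hw : HasWt q S F) :
    iSupIndep (wtPart q S F) := by
  have h1 : iSupIndep (fun α : Ω => S ⊓ F.maxGenEigenspace α) :=
    (Module.End.independent_maxGenEigenspace F).mono fun α => inf_le_right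
  have h2 := iSupIndep_fib h1 (Coh.wtf q)
  have e : wtPart q S F = fun w => ⨆ (α : Ω) (_ : Coh.wtf q α = w), S ⊓ F.maxGenEigenspace α := by
    funext w
    exact wtPart_eq hq hS hw w
  rw [e]
  exact h2

lemma iSup_wt [IsAlgClosed Ω] [Module.Finite Ω V] (hS : ∀ x ∈ S, F x ∈ S) (hw : HasWt q S F) :
    ⨆ w, wtPart q S F w = S := by
  apply le_antisymm
  · exact iSup_le fun w => wtPart_le w
  · have h1 : S = ⨆ α, S ⊓ F.maxGenEigenspace α :=
      Submodule.eq_iSup_inf_genEigenspace ⊤ hS (Module.End.iSup_maxGenEigenspace_eq_top F)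
    conv_lhs => rw [h1]
    refine iSup_le fun α => ?_
    by_cases h : ∃ w : ℤ, IsWeilNumber q w α
    · obtain ⟨w, hw⟩ := h
      exact le_iSup_of_le w (le_iSup₂_of_le α hw le_rfl)
    · rw [inf_eq_bot hS hw h]
      exact bot_le

/-- The decomposition by the excess `c` (the weight `m + c`). -/
def exc (q : ℕ) (m : ℤ) (S : Submodule Ω V) (F : Module.End Ω V) (c : ℤ) : Submodule Ω V :=
  wtPart q S F (m + c)

lemma indep_exc (hq : 1 < q) (hS : ∀ x ∈ S, F x ∈ S) (hw : HasWt q S F) (m : ℤ) :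
    iSupIndep (exc q m S F) :=
  (indep_wt hq hS hw).comp (f := fun c : ℤ => m + c) (fun c c' h => by simpa using h)

lemma iSup_exc [IsAlgClosed Ω] [Module.Finite Ω V] (hS : ∀ x ∈ S, F x ∈ S) (hw : HasWt q S F)
    (m : ℤ) : ⨆ c, exc q m S F c = S := by
  apply le_antisymm
  · exact iSup_le fun c => wtPart_le _
  · conv_lhs => rw [← iSup_wt hS hw]
    refine iSup_le fun w => ?_
    refine le_iSup_of_le (w - m) ?_
    unfold exc
    rw [show m + (w - m) = w by ring]

lemma F_wt (hS : ∀ x ∈ S, F x ∈ S) (w : ℤ) : ∀ x ∈ wtPart q S F w, F x ∈ wtPart q S F w := by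
  intro x hx
  have h : wtPart q S F w ≤ (wtPart q S F w).comap F := by
    refine iSup₂_le fun α hα => ?_
    intro y hy
    refine Submodule.mem_iSup_of_mem α (Submodule.mem_iSup_of_mem hα ?_)
    obtain ⟨h1, h2⟩ := Submodule.mem_inf.1 hy
    refine Submodule.mem_inf.2 ⟨hS y h1, ?_⟩
    exact gen_map F (fun _ => rfl) h2
  exact h hx

/-- A homomorphism `g` with `F' g = q ^ k g F` raises the weights by `2 k`. -/
lemma map_wt (hq : 1 < q) {F' : Module.End Ω V'} {S' : Submodule Ω V'} (g : V →ₗ[Ω] V') (k : ℤ)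
    (hS : ∀ x ∈ S, g x ∈ S') (hg : ∀ x, F' (g x) = ((q : Ω) ^ k) • g (F x)) (w : ℤ) :
    ∀ x ∈ wtPart q S F w, g x ∈ wtPart q S' F' (w + 2 * k) := by
  intro x hx
  have hq0 : (q : Ω) ≠ 0 := Nat.cast_ne_zero.2 (by omega)
  have h : wtPart q S F w ≤ (wtPart q S' F' (w + 2 * k)).comap g := by
    refine iSup₂_le fun α hα => ?_
    intro y hy
    have h3 := hα.twist (by omega : q ≠ 0) k
    refine Submodule.mem_iSup_of_mem _ (Submodule.mem_iSup_of_mem h3 ?_)
    obtain ⟨h1, h2⟩ := Submodule.mem_inf.1 hy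
    refine Submodule.mem_inf.2 ⟨hS y h1, ?_⟩
    have h4 : y ∈ ((q : Ω) ^ k • F).maxGenEigenspace ((q : Ω) ^ k * α) := by
      obtain ⟨j, hj⟩ := mem_gen.1 h2
      refine mem_gen.2 ⟨j, ?_⟩
      have e : (q : Ω) ^ k • F - algebraMap Ω (Module.End Ω V) ((q : Ω) ^ k * α) =
          (q : Ω) ^ k • (F - algebraMap Ω (Module.End Ω V) α) := by
        ext z
        simp only [LinearMap.sub_apply, LinearMap.smul_apply, Module.algebraMap_end_apply,
          smul_sub, smul_smul]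
      rw [e, smul_pow, LinearMap.smul_apply, hj, smul_zero]
    refine gen_map g (fun z => ?_) h4
    rw [LinearMap.smul_apply, map_smul, hg]
  exact h hx

lemma N_wt (hq : 1 < q) (hS : ∀ x ∈ S, N x ∈ S) (hNF : ∀ x, N (F x) = (q : Ω) • F (N x)) (w : ℤ) :
    ∀ x ∈ wtPart q S F w, N x ∈ wtPart q S F (w - 2) := by
  have hq0 : (q : Ω) ≠ 0 := Nat.cast_ne_zero.2 (by omega)
  have := map_wt (F := F) (F' := F) (S := S) (S' := S) hq N (-1) hS (fun x => by
    rw [hNF, smul_smul, zpow_neg_one, inv_mul_cancel₀ hq0, one_smul]) w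
  rwa [show w + 2 * (-1) = w - 2 by ring] at this

lemma N_exc (hq : 1 < q) (hS : ∀ x ∈ S, N x ∈ S) (hNF : ∀ x, N (F x) = (q : Ω) • F (N x))
    (m c : ℤ) : ∀ x ∈ exc q m S F c, N x ∈ exc q m S F (c - 2) := by
  intro x hx
  have := N_wt hq hS hNF (m + c) x hx
  unfold exc
  rwa [show m + (c - 2) = m + c - 2 by ring]

/-- Products of elements of weights `w` and `w'`. -/
lemma mul_wt (hq : 1 < q) {F' : Module.End Ω V'} {F'' : Module.End Ω V''} {S' : Submodule Ω V'}
    {S'' : Submodule Ω V''} (μ : V →ₗ[Ω] V' →ₗ[Ω] V'')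
    (hS : ∀ x ∈ S, ∀ y ∈ S', μ x y ∈ S'') (hμ : ∀ x y, F'' (μ x y) = μ (F x) (F' y)) (w w' : ℤ)
    {x : V} {y : V'} (hx : x ∈ wtPart q S F w) (hy : y ∈ wtPart q S' F' w') :
    μ x y ∈ wtPart q S'' F'' (w + w') := by
  have h2 : wtPart q S F w ≤ (wtPart q S'' F'' (w + w')).comap (μ.flip y) := by
    refine iSup₂_le fun α hα z hz => ?_
    have h3 : wtPart q S' F' w' ≤ (wtPart q S'' F'' (w + w')).comap (μ z) := by
      refine iSup₂_le fun β hβ t ht => ?_
      obtain ⟨hz1, hz2⟩ := Submodule.mem_inf.1 hz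
      obtain ⟨ht1, ht2⟩ := Submodule.mem_inf.1 ht
      have h4 := weil_mul (by omega : 0 < q) hα hβ
      refine Submodule.mem_iSup_of_mem _ (Submodule.mem_iSup_of_mem h4 ?_)
      refine Submodule.mem_inf.2 ⟨hS z hz1 t ht1, ?_⟩
      have h5 := gen_tmul hz2 ht2
      have h6 := gen_map (f := TensorProduct.map F F') (g := F'') (TensorProduct.lift μ)
        (fun v => ?_) h5
      · simpa using h6
      · induction v using TensorProduct.induction_on with
        | zero => simp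
        | tmul a b => simp [hμ]
        | add a b ha hb => rw [map_add, map_add, map_add, map_add, ha, hb]
    exact h3 hy
  exact h2 hx

/-- Orthogonality. -/
lemma orth_wt (hq : 1 < q) {S' : Submodule Ω V} (hS : ∀ x ∈ S, F x ∈ S) (hS' : ∀ x ∈ S', F x ∈ S')
    {B : V →ₗ[Ω] V →ₗ[Ω] Ω} {d : ℕ} (hB : ∀ x y, B (F x) (F y) = (q : Ω) ^ d * B x y) {w w' : ℤ}
    (hww : w + w' ≠ 2 * d) {x y : V} (hx : x ∈ wtPart q S F w) (hy : y ∈ wtPart q S' F w') :
    B x y = 0 := by
  have h2 : wtPart q S F w ≤ LinearMap.ker (B.flip y) := by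
    refine iSup₂_le fun α hα z hz => ?_
    have h3 : wtPart q S' F w' ≤ LinearMap.ker (B z) := by
      refine iSup₂_le fun β hβ t ht => ?_
      obtain ⟨hz1, hz2⟩ := Submodule.mem_inf.1 hz
      obtain ⟨ht1, ht2⟩ := Submodule.mem_inf.1 ht
      rw [LinearMap.mem_ker]
      refine gen_orth (S := ⊤) (fun _ _ => trivial) (fun x y _ _ => hB x y) ?_ trivial trivial
        hz2 ht2
      intro h
      have h4 := weil_mul (by omega : 0 < q) hα hβ
      rw [h] at h4
      have h5 := weil_natPow (Ω := Ω) (by omega : 0 < q) d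
      have := weil_unique hq h4 h5
      exact hww (by exact_mod_cast this)
    exact h3 hy
  exact h2 hx

/-- Purity means that the weight decomposition is centred. -/
lemma isPure_iff [IsAlgClosed Ω] [Module.Finite Ω V] (hq : 1 < q) (hS : Stable S F N)
    (hNF : ∀ x, N (F x) = (q : Ω) • F (N x)) (hw : HasWt q S F) (m : ℤ) :
    IsPure q m S F N ↔ Centred (exc q m S F) N := by
  have hF : ∀ x ∈ S, F x ∈ S := fun x hx => (hS x hx).1
  have hN : ∀ x ∈ S, N x ∈ S := fun x hx => (hS x hx).2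
  refine Pool.Agent.Y48.MW.t_G Ω V S (exc q m S F) F N (q : Ω)
    (fun c α => IsWeilNumber q (m + c) α) (iSup_exc hF hw m) (indep_exc hq hF hw m)
    (fun c => F_wt hF _) (N_exc hq hN hNF m) (Nat.cast_ne_zero.2 (by omega)) (fun x _ => hNF x)
    (fun c α x hx h0 hFx => ?_) (fun c c' α h h' => by have := weil_unique hq h h'; omega)
  obtain ⟨w, hw'⟩ := hw α x (wtPart_le _ hx) h0 hFx
  have h1 : x ∈ wtPart q S F w := by
    refine Submodule.mem_iSup_of_mem α (Submodule.mem_iSup_of_mem hw' ?_)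
    refine Submodule.mem_inf.2 ⟨wtPart_le _ hx, mem_gen.2 ⟨1, ?_⟩⟩
    rw [pow_one, LinearMap.sub_apply, Module.algebraMap_end_apply, hFx, sub_self]
  have h2 : m + c = w := by
    by_contra hne
    have := (indep_wt hq hF hw).pairwiseDisjoint hne
    exact h0 (Submodule.disjoint_def.1 this x hx h1)
  rw [h2]
  exact hw'

end

end Pool.Agent.K1H13.M
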